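import Pool.Agent.QC.Defs

set_option autoImplicit false

/-!
# (3.1) Persistence of a nondegenerate critical point (implicit function theorem)
-/

namespace Pool.Agent.QC

open Filter Topology Finset MvPolynomial

section Sm

variable {P : Type*} [NormedAddCommGroup P] [NormedSpace ℝ P] {m : ℕ}

/-- Families of polynomials with smooth coefficients (and bounded degree). -/
inductive SmP : (P → Pol m) → Prop
  | mon (d : Fin m →₀ ℕ) (c : P → ℂ) (hc : ContDiff ℝ ⊤ c) : SmP (fun p => monomial d (c p))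
  | add {G H : P → Pol m} : SmP G → SmP H → SmP (fun p => G p + H p)

lemma SmP.constC {c : P → ℂ} (hc : ContDiff ℝ ⊤ c) : SmP (fun p => (C (c p) : Pol m)) :=
  SmP.mon 0 c hc

lemma SmP.zero : SmP (fun _ : P => (0 : Pol m)) := by
  have := SmP.constC (P := P) (m := m) (c := fun _ => 0) contDiff_const
  simpa using this

lemma SmP.one : SmP (fun _ : P => (1 : Pol m)) := by
  have := SmP.constC (P := P) (m := m) (c := fun _ => 1) contDiff_const
  simpa using this

lemma SmP.var (i : Fin m) : SmP (fun _ : P => (X i : Pol m)) :=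
  SmP.mon (Finsupp.single i 1) (fun _ => 1) contDiff_const

lemma SmP.mul {G H : P → Pol m} (hG : SmP G) (hH : SmP H) : SmP (fun p => G p * H p) := by
  induction hG with
  | mon d c hc =>
    induction hH with
    | mon e b hb =>
      have : (fun p => (monomial d (c p) : Pol m) * monomial e (b p)) =
          fun p => monomial (d + e) (c p * b p) := by
        funext p
        rw [monomial_mul]
      rw [this]
      exact SmP.mon _ _ (hc.mul hb)
    | add h1 h2 ih1 ih2 =>
      simp only [mul_add]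
      exact SmP.add ih1 ih2
  | add h1 h2 ih1 ih2 =>
    simp only [add_mul]
    exact SmP.add ih1 ih2

lemma SmP.neg {G : P → Pol m} (hG : SmP G) : SmP (fun p => - G p) := by
  have := (SmP.constC (P := P) (m := m) (c := fun _ => -1) contDiff_const).mul hG
  simpa using this

lemma SmP.sub {G H : P → Pol m} (hG : SmP G) (hH : SmP H) : SmP (fun p => G p - H p) := by
  simp only [sub_eq_add_neg]
  exact SmP.add hG hH.neg

lemma SmP.sum {ι : Type*} (s : Finset ι) {G : ι → P → Pol m} (hG : ∀ i ∈ s, SmP (G i)) :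
    SmP (fun p => ∑ i ∈ s, G i p) := by
  classical
  induction s using Finset.induction_on with
  | empty => simpa using SmP.zero
  | insert a s ha ih =>
    simp only [Finset.sum_insert ha]
    exact SmP.add (hG a (Finset.mem_insert_self _ _))
      (ih fun i hi => hG i (Finset.mem_insert_of_mem hi))

lemma SmP.prod {ι : Type*} (s : Finset ι) {G : ι → P → Pol m} (hG : ∀ i ∈ s, SmP (G i)) :
    SmP (fun p => ∏ i ∈ s, G i p) := by
  classical
  induction s using Finset.induction_on with
  | empty => simpa using SmP.one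
  | insert a s ha ih =>
    simp only [Finset.prod_insert ha]
    exact SmP.mul (hG a (Finset.mem_insert_self _ _))
      (ih fun i hi => hG i (Finset.mem_insert_of_mem hi))

lemma SmP.pow {G : P → Pol m} (hG : SmP G) (k : ℕ) : SmP (fun p => G p ^ k) := by
  induction k with
  | zero => simpa using SmP.one
  | succ k ih =>
    simp only [pow_succ]
    exact ih.mul hG

lemma SmP.pderiv {G : P → Pol m} (hG : SmP G) (i : Fin m) :
    SmP (fun p => MvPolynomial.pderiv i (G p)) := by
  induction hG with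
  | mon d c hc =>
    simp only [pderiv_monomial]
    exact SmP.mon _ _ (hc.mul contDiff_const)
  | add h1 h2 ih1 ih2 =>
    simp only [map_add]
    exact SmP.add ih1 ih2

lemma SmP.contDiff {G : P → Pol m} (hG : SmP G) :
    ContDiff ℝ ⊤ (fun v : P × (Fin m → ℂ) => eval v.2 (G v.1)) := by
  induction hG with
  | mon d c hc =>
    simp only [eval_monomial, Finsupp.prod]
    refine (hc.comp contDiff_fst).mul (contDiff_prod fun i _ => ?_)
    exact ((contDiff_apply ℝ ℂ i).comp contDiff_snd).pow _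
  | add h1 h2 ih1 ih2 =>
    simp only [map_add]
    exact ih1.add ih2

end Sm

/-- Partial derivatives commute. -/
private lemma pderiv_swap {m : ℕ} (i j : Fin m) (P : Pol m) :
    pderiv i (pderiv j P) = pderiv j (pderiv i P) := by
  induction P using MvPolynomial.induction_on' with
  | monomial s a =>
    simp only [pderiv_monomial]
    by_cases h : i = j
    · subst h; rfl
    · congr 1
      · rw [tsub_right_comm]
      · rw [Finsupp.tsub_apply, Finsupp.tsub_apply, Finsupp.single_eq_of_ne (Ne.symm h),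
          Finsupp.single_eq_of_ne h]
        simp
        ring
  | add p q hp hq => simp [hp, hq]

/-- The linear form `v ↦ sum c_k v_k`. -/
noncomputable def linF {m : ℕ} (c : Fin m → ℂ) : (Fin m → ℂ) →L[ℂ] ℂ :=
  ∑ k, c k • ContinuousLinearMap.proj (R := ℂ) (φ := fun _ : Fin m => ℂ) k

lemma linF_apply {m : ℕ} (c v : Fin m → ℂ) : linF c v = ∑ k, c k * v k := by
  simp [linF, _root_.sum_apply]

/-- Derivative of a polynomial function. -/
lemma hasFDerivAt_evalPol {m : ℕ} (f : Pol m) (x : Fin m → ℂ) :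
    HasFDerivAt (fun x : Fin m → ℂ => eval x f) (linF fun k => eval x (pderiv k f)) x := by
  classical
  induction f using MvPolynomial.induction_on with
  | C a =>
    have h0 : (fun x : Fin m → ℂ => eval x (C a)) = fun _ => a := by
      funext x; simp
    rw [h0]
    refine (hasFDerivAt_const a x).congr_fderiv ?_
    refine ContinuousLinearMap.ext fun v => ?_
    rw [linF_apply]
    simp
  | add p q hp hq =>
    have h0 : (fun x : Fin m → ℂ => eval x (p + q)) = fun x => eval x p + eval x q := by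
      funext x; simp
    rw [h0]
    refine (hp.add hq).congr_fderiv ?_
    refine ContinuousLinearMap.ext fun v => ?_
    rw [add_apply, linF_apply, linF_apply, linF_apply, ← Finset.sum_add_distrib]
    refine Finset.sum_congr rfl fun k _ => ?_
    rw [map_add, map_add, add_mul]
  | mul_X p i hp =>
    have h1 : HasFDerivAt (fun x : Fin m → ℂ => x i)
        (ContinuousLinearMap.proj (R := ℂ) (φ := fun _ : Fin m => ℂ) i) x :=
      hasFDerivAt_apply i x
    have h0 : (fun x : Fin m → ℂ => eval x (p * X i)) = fun x => eval x p * x i := by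
      funext x; simp
    rw [h0]
    refine (hp.mul h1).congr_fderiv ?_
    refine ContinuousLinearMap.ext fun v => ?_
    rw [add_apply, smul_apply, smul_apply, linF_apply, linF_apply,
      ContinuousLinearMap.proj_apply, smul_eq_mul, smul_eq_mul, Finset.mul_sum]
    have h2 : ∀ k, eval x (pderiv k (p * X i)) * v k =
        eval x p * (if k = i then v k else 0) + x i * (eval x (pderiv k p) * v k) := by
      intro k
      rw [pderiv_mul, map_add, map_mul, map_mul, eval_X]
      by_cases h : k = i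
      · subst h
        rw [pderiv_X_self]
        simp
        ring
      · rw [pderiv_X_of_ne (Ne.symm h)]
        simp [h]
        ring
    rw [Finset.sum_congr rfl fun k _ => h2 k, Finset.sum_add_distrib, ← Finset.mul_sum]
    simp

section Fam

variable {n l : ℕ}

lemma smP_qpol (m : Fin (l + 1)) :
    SmP (fun p : Tup n l × ℝ => qpol (p.1 m)) := by
  unfold qpol
  have h1 : ContDiff ℝ ⊤ (fun p : Tup n l × ℝ => p.1 m) :=
    (contDiff_apply ℝ (QPc (n + 1)) m).comp contDiff_fst
  refine SmP.add (SmP.add ?_ ?_) ?_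
  · refine SmP.sum _ fun i _ => SmP.sum _ fun j _ => ?_
    refine SmP.mul (SmP.mul (SmP.constC ?_) (SmP.var i)) (SmP.var j)
    have h2 : ContDiff ℝ ⊤ (fun p : Tup n l × ℝ => (p.1 m).1) := contDiff_fst.comp h1
    exact (contDiff_pi.mp (contDiff_pi.mp h2 i)) j
  · refine SmP.sum _ fun i _ => ?_
    refine SmP.mul (SmP.constC ?_) (SmP.var i)
    have h2 : ContDiff ℝ ⊤ (fun p : Tup n l × ℝ => (p.1 m).2.1) :=
      contDiff_fst.comp (contDiff_snd.comp h1)
    exact contDiff_pi.mp h2 i
  · exact SmP.constC (contDiff_snd.comp (contDiff_snd.comp h1))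

lemma smP_fpol (en : ℝ) : SmP (fun p : Tup n l × ℝ => fpol en p.2 p.1) := by
  unfold fpol f0 prodT Eform
  refine SmP.sub (SmP.sub (SmP.prod _ fun m _ => smP_qpol m) SmP.one) ?_
  refine SmP.mul (SmP.constC ?_) ?_
  · exact Complex.ofRealCLM.contDiff.comp contDiff_snd
  · refine SmP.add (SmP.sum _ fun i _ => (SmP.var _).pow _) ?_
    exact SmP.mul (SmP.constC contDiff_const) ((SmP.var _).pow _)

/-- The system: `f` and the partial derivatives in the directions `x'`. -/
noncomputable def critMap (en : ℝ) (v : (Tup n l × ℝ) × (Fin (n + 1) → ℂ)) :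
    Fin (n + 1) → ℂ :=
  Fin.snoc (fun i : Fin n => eval v.2 (pderiv i.castSucc (fpol en v.1.2 v.1.1)))
    (eval v.2 (fpol en v.1.2 v.1.1))

lemma critMap_eq_zero (en : ℝ) (p : Tup n l × ℝ) (x : Fin (n + 1) → ℂ) :
    critMap en (p, x) = 0 ↔ x ∈ CritF (fpol en p.2 p.1) := by
  constructor
  · intro h
    refine ⟨?_, fun i => ?_⟩
    · have := congrFun h (Fin.last n)
      simpa [critMap] using this
    · have := congrFun h i.castSucc
      simpa [critMap] using this
  · rintro ⟨h1, h2⟩
    funext k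
    refine Fin.lastCases ?_ (fun i => ?_) k
    · simpa [critMap] using h1
    · simpa [critMap] using h2 i

lemma contDiff_critMap (en : ℝ) : ContDiff ℝ ⊤ (critMap (n := n) (l := l) en) := by
  rw [contDiff_pi]
  intro k
  refine Fin.lastCases ?_ (fun i => ?_) k
  · have := (smP_fpol (n := n) (l := l) en).contDiff
    simpa [critMap] using this
  · have := ((smP_fpol (n := n) (l := l) en).pderiv i.castSucc).contDiff
    simpa [critMap] using this

/-- The partial derivative of `critMap` in `x`. -/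
noncomputable def critD (en : ℝ) (p : Tup n l × ℝ) (x : Fin (n + 1) → ℂ) :
    (Fin (n + 1) → ℂ) →L[ℂ] (Fin (n + 1) → ℂ) :=
  ContinuousLinearMap.pi (Fin.snoc
    (fun i : Fin n => linF fun k => eval x (pderiv k (pderiv i.castSucc (fpol en p.2 p.1))))
    (linF fun k => eval x (pderiv k (fpol en p.2 p.1))) :
      Fin (n + 1) → ((Fin (n + 1) → ℂ) →L[ℂ] ℂ))

lemma critD_last (en : ℝ) (p : Tup n l × ℝ) (x v : Fin (n + 1) → ℂ) :
    critD en p x v (Fin.last n) = ∑ k, eval x (pderiv k (fpol en p.2 p.1)) * v k := by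
  rw [critD, ContinuousLinearMap.pi_apply, Fin.snoc_last, linF_apply]

lemma critD_castSucc (en : ℝ) (p : Tup n l × ℝ) (x v : Fin (n + 1) → ℂ) (i : Fin n) :
    critD en p x v i.castSucc =
      ∑ k, eval x (pderiv k (pderiv i.castSucc (fpol en p.2 p.1))) * v k := by
  rw [critD, ContinuousLinearMap.pi_apply, Fin.snoc_castSucc, linF_apply]

lemma hasFDerivAt_critMap (en : ℝ) (p : Tup n l × ℝ) (x : Fin (n + 1) → ℂ) :
    HasFDerivAt (fun x => critMap en (p, x)) (critD en p x) x := by
  rw [hasFDerivAt_pi']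
  intro k
  refine Fin.lastCases ?_ (fun i => ?_) k
  · have h := hasFDerivAt_evalPol (fpol en p.2 p.1) x
    have h0 : (fun x => critMap en (p, x) (Fin.last n)) = fun x => eval x (fpol en p.2 p.1) := by
      funext x
      simp [critMap]
    rw [h0]
    refine h.congr_fderiv ?_
    refine ContinuousLinearMap.ext fun v => ?_
    rw [linF_apply]
    exact (critD_last en p x v).symm
  · have h := hasFDerivAt_evalPol (pderiv i.castSucc (fpol en p.2 p.1)) x
    have h0 : (fun x => critMap en (p, x) i.castSucc) =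
        fun x => eval x (pderiv i.castSucc (fpol en p.2 p.1)) := by
      funext x
      simp [critMap]
    rw [h0]
    refine h.congr_fderiv ?_
    refine ContinuousLinearMap.ext fun v => ?_
    rw [linF_apply]
    exact (critD_castSucc en p x v i).symm

lemma critD_inj (en : ℝ) (p : Tup n l × ℝ) (x : Fin (n + 1) → ℂ)
    (hx : x ∈ CritF (fpol en p.2 p.1)) (hnd : NonDegC (fpol en p.2 p.1) x) :
    ∀ v, critD en p x v = 0 → v = 0 := by
  intro v hv
  have hlast : v (Fin.last n) = 0 := by
    have h1 := congrFun hv (Fin.last n)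
    rw [critD_last, Fin.sum_univ_castSucc] at h1
    have h3 : ∑ i : Fin n, eval x (pderiv i.castSucc (fpol en p.2 p.1)) * v i.castSucc = 0 :=
      Finset.sum_eq_zero fun i _ => by rw [hx.2 i, zero_mul]
    rw [h3, zero_add] at h1
    exact (mul_eq_zero.mp h1).resolve_left hnd.2
  have hm : (hess' (fpol en p.2 p.1) x).mulVec (fun i : Fin n => v i.castSucc) = 0 := by
    funext i
    have h2 := congrFun hv i.castSucc
    rw [critD_castSucc, Fin.sum_univ_castSucc, hlast, mul_zero, add_zero] at h2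
    simp only [Matrix.mulVec, dotProduct, hess']
    refine Eq.trans (Finset.sum_congr rfl fun k _ => ?_) h2
    rw [pderiv_swap]
  have h0 := Matrix.eq_zero_of_mulVec_eq_zero hnd.1 hm
  funext k
  refine Fin.lastCases hlast (fun i => ?_) k
  exact congrFun h0 i

/-- **(3.1), persistence.** -/
theorem ift_crit (en : ℝ) (q0 : Tup n l) (w0 : Fin (n + 1) → ℂ)
    (h0 : w0 ∈ CritF (f0 q0)) (hnd : NonDegC (f0 q0) w0) :
    ∃ ρ0 > 0, ∀ ρ, 0 < ρ → ρ ≤ ρ0 → ∀ᶠ p : Tup n l × ℝ in nhds (q0, 0),
      ∃ w, (w ∈ CritF (fpol en p.2 p.1) ∧ ‖w - w0‖ < ρ ∧ NonDegC (fpol en p.2 p.1) w) ∧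
        ∀ w', w' ∈ CritF (fpol en p.2 p.1) → ‖w' - w0‖ < ρ0 → w' = w := by
  have hf : fpol en ((q0, (0 : ℝ)) : Tup n l × ℝ).2 ((q0, (0 : ℝ)) : Tup n l × ℝ).1 = f0 q0 := by
    simp [fpol]
  set u : (Tup n l × ℝ) × (Fin (n + 1) → ℂ) := ((q0, 0), w0) with hu
  have hcd : ContDiffAt ℝ ⊤ (critMap (n := n) (l := l) en) u := (contDiff_critMap en).contDiffAt
  have hne : (⊤ : WithTop ℕ∞) ≠ 0 := by simp
  have hx : w0 ∈ CritF (fpol en (q0, (0 : ℝ)).2 ((q0, (0 : ℝ)) : Tup n l × ℝ).1) := by
    rw [hf]; exact h0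
  have hnd' : NonDegC (fpol en (q0, (0 : ℝ)).2 ((q0, (0 : ℝ)) : Tup n l × ℝ).1) w0 := by
    rw [hf]; exact hnd
  -- the partial derivative
  have hpart : (fderiv ℝ (critMap (n := n) (l := l) en) u) ∘L
      (ContinuousLinearMap.inr ℝ (Tup n l × ℝ) (Fin (n + 1) → ℂ)) =
      (critD en (q0, 0) w0).restrictScalars ℝ := by
    have h1 : HasFDerivAt (fun x => critMap (n := n) (l := l) en ((q0, 0), x))
        ((fderiv ℝ (critMap (n := n) (l := l) en) u) ∘L
          (ContinuousLinearMap.inr ℝ (Tup n l × ℝ) (Fin (n + 1) → ℂ))) w0 := by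
      have h2 : HasFDerivAt (critMap (n := n) (l := l) en)
          (fderiv ℝ (critMap (n := n) (l := l) en) u) u :=
        (hcd.differentiableAt (by simp)).hasFDerivAt
      have h3 : HasFDerivAt (fun x : Fin (n + 1) → ℂ => (((q0, 0), x) :
          (Tup n l × ℝ) × (Fin (n + 1) → ℂ)))
          (ContinuousLinearMap.inr ℝ (Tup n l × ℝ) (Fin (n + 1) → ℂ)) w0 :=
        hasFDerivAt_prodMk_right _ _
      exact h2.comp w0 h3
    have h4 : HasFDerivAt (fun x => critMap (n := n) (l := l) en ((q0, 0), x))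
        ((critD en (q0, 0) w0).restrictScalars ℝ) w0 :=
      (hasFDerivAt_critMap en (q0, 0) w0).restrictScalars ℝ
    exact h1.unique h4
  have hinv : ((fderiv ℝ (critMap (n := n) (l := l) en) u) ∘L
      (ContinuousLinearMap.inr ℝ (Tup n l × ℝ) (Fin (n + 1) → ℂ))).IsInvertible := by
    rw [hpart]
    have hinj : Function.Injective
        (((critD en (q0, 0) w0).restrictScalars ℝ : (Fin (n + 1) → ℂ) →L[ℝ] (Fin (n + 1) → ℂ)) :
          (Fin (n + 1) → ℂ) →ₗ[ℝ] (Fin (n + 1) → ℂ)) := by
      rw [← LinearMap.ker_eq_bot, LinearMap.ker_eq_bot']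
      intro v hv
      exact critD_inj en (q0, 0) w0 hx hnd' v hv
    refine ⟨(LinearEquiv.ofInjectiveEndo _ hinj).toContinuousLinearEquiv, ?_⟩
    ext v
    rfl
  set ψ := hcd.implicitFunction hne hinv with hψ
  have hu0 : critMap (n := n) (l := l) en u = 0 := (critMap_eq_zero en _ _).mpr hx
  have hiff : ∀ᶠ v in 𝓝 u, critMap (n := n) (l := l) en v = critMap en u ↔ ψ v.1 = v.2 :=
    hcd.eventually_apply_eq_iff_implicitFunction hne hinv
  have hψ0 : ψ u.1 = u.2 := hcd.implicitFunction_apply_self hne hinv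
  have hψc : ContinuousAt ψ u.1 :=
    (hcd.hasStrictFDerivAt_implicitFunction hne hinv).hasFDerivAt.continuousAt
  rw [hu0] at hiff
  -- a product neighbourhood
  have hiff' : ∀ᶠ v : (Tup n l × ℝ) × (Fin (n + 1) → ℂ) in 𝓝 (q0, (0 : ℝ)) ×ˢ 𝓝 w0,
      critMap (n := n) (l := l) en v = 0 ↔ ψ v.1 = v.2 := by
    rw [← nhds_prod_eq]; exact hiff
  rw [Filter.eventually_prod_iff] at hiff'
  obtain ⟨pa, hpa, pb, hpb, hab⟩ := hiff'
  obtain ⟨ρ0, hρ0, hball⟩ := Metric.eventually_nhds_iff.mp hpb
  refine ⟨ρ0, hρ0, fun ρ hρ hρρ => ?_⟩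
  have hnear : ∀ᶠ p in 𝓝 (q0, (0 : ℝ)), ‖ψ p - w0‖ < ρ := by
    have h1 : Tendsto ψ (𝓝 (q0, (0 : ℝ))) (𝓝 w0) := by
      have := hψc.tendsto
      rwa [hψ0] at this
    have h2 := Metric.tendsto_nhds.mp h1 ρ hρ
    simpa [dist_eq_norm] using h2
  -- nondegeneracy is open
  have hopen : ∀ᶠ p in 𝓝 (q0, (0 : ℝ)), NonDegC (fpol en p.2 p.1) (ψ p) := by
    have hpair : ContinuousAt (fun p : Tup n l × ℝ => (p, ψ p)) (q0, (0 : ℝ)) :=
      continuousAt_id.prodMk hψc
    have hpt : (fun p : Tup n l × ℝ => (p, ψ p)) (q0, (0 : ℝ)) = u := by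
      have : ψ (q0, (0 : ℝ)) = w0 := hψ0
      simp [this, hu]
    have hc1 : Continuous (fun v : (Tup n l × ℝ) × (Fin (n + 1) → ℂ) =>
        (hess' (fpol en v.1.2 v.1.1) v.2).det) := by
      refine Continuous.matrix_det ?_
      refine continuous_matrix fun i j => ?_
      exact (((smP_fpol (n := n) (l := l) en).pderiv j.castSucc).pderiv
        i.castSucc).contDiff.continuous
    have hc2 : Continuous (fun v : (Tup n l × ℝ) × (Fin (n + 1) → ℂ) =>
        eval v.2 (pderiv (Fin.last n) (fpol en v.1.2 v.1.1))) :=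
      ((smP_fpol (n := n) (l := l) en).pderiv (Fin.last n)).contDiff.continuous
    have e1 : ∀ᶠ v in 𝓝 u, (hess' (fpol en v.1.2 v.1.1) v.2).det ≠ 0 :=
      hc1.continuousAt.eventually_ne hnd'.1
    have e2 : ∀ᶠ v in 𝓝 u, eval v.2 (pderiv (Fin.last n) (fpol en v.1.2 v.1.1)) ≠ 0 :=
      hc2.continuousAt.eventually_ne hnd'.2
    have e3 := (hpt ▸ hpair.tendsto : Tendsto (fun p : Tup n l × ℝ => (p, ψ p))
      (𝓝 (q0, (0 : ℝ))) (𝓝 u)).eventually (e1.and e2)
    exact e3
  filter_upwards [hpa, hnear, hopen] with p hp1 hp2 hp3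
  have hwball : pb (ψ p) := by
    apply hball
    rw [dist_eq_norm]
    exact lt_of_lt_of_le hp2 hρρ
  have hcrit : ψ p ∈ CritF (fpol en p.2 p.1) :=
    (critMap_eq_zero en _ _).mp ((hab hp1 hwball).mpr rfl)
  refine ⟨ψ p, ⟨hcrit, hp2, hp3⟩, fun w' hw' hw'' => ?_⟩
  have hw'b : pb w' := by
    apply hball
    rw [dist_eq_norm]
    exact hw''
  exact ((hab hp1 hw'b).mp ((critMap_eq_zero en _ _).mpr hw')).symm

end Fam

end Pool.Agent.QC
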