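import Pool.Agent.QC.Tame.Usc
import Pool.Agent.QC.Tame.Ift

set_option autoImplicit false

/-!
# Uniform tameness (3.1): exactly one critical point over a cell
-/

namespace Pool.Agent.QC

open Filter Topology Finset MvPolynomial

variable {n l : ℕ}

/-- Cells, jointly in the tuple and `eta`, for every `en > 0`. -/
theorem tame_cell_at {q : Tup n l} (h1 : T1 q) {w : Fin (n + 1) → ℂ} (hw : w ∈ CritF (f0 q))
    (hn : NonDegC (f0 q) w) {Q : Set ℂ} (hQ : IsCompact Q) (hQw : Q ∈ 𝓝 (w (Fin.last n)))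
    (hu : ∀ x ∈ CritF (f0 q), x (Fin.last n) ∈ Q → x = w) {O : Set (Fin (n + 1) → ℂ)}
    (hO : O ∈ 𝓝 w) {en : ℝ} (hen : 0 < en) :
    ∀ᶠ p : ℝ × Tup n l in 𝓝 (0, q), 0 ≤ p.1 → ∃ x ∈ CritF (fpol en p.1 p.2), x ∈ O ∧
      x (Fin.last n) ∈ Q ∧ NonDegC (fpol en p.1 p.2) x ∧
      ∀ y ∈ CritF (fpol en p.1 p.2), y (Fin.last n) ∈ Q → y = x := by
  obtain ⟨ρ0, hρ0, hift⟩ := ift_crit en q w hw hn
  have hO' : O ∩ (fun x : Fin (n + 1) → ℂ => x (Fin.last n)) ⁻¹' Q ∈ 𝓝 w := by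
    refine inter_mem hO ?_
    have : Continuous fun x : Fin (n + 1) → ℂ => x (Fin.last n) := by fun_prop
    exact this.continuousAt hQw
  obtain ⟨ε, hε, hεO⟩ := Metric.mem_nhds_iff.1 hO'
  have h2 := hift (min ε ρ0) (lt_min hε hρ0) (min_le_right _ _)
  have ht : Tendsto (fun p : ℝ × Tup n l => (p.2, p.1)) (𝓝 (0, q)) (𝓝 (q, 0)) := by
    have : Continuous fun p : ℝ × Tup n l => (p.2, p.1) := by fun_prop
    exact this.tendsto (0, q)
  have h3 := ht.eventually h2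
  have h4 := crit_usc h1 hen hQ (Metric.isOpen_ball (x := w) (ε := ρ0)) (by
    intro x hx hxQ
    rw [hu x hx hxQ]
    exact Metric.mem_ball_self hρ0)
  filter_upwards [h3, h4] with p h5 h6 h7
  obtain ⟨x, ⟨hx1, hx2, hx3⟩, hx4⟩ := h5
  have hx5 := hεO (show x ∈ Metric.ball w ε by
    rw [mem_ball_iff_norm]
    exact hx2.trans_le (min_le_left _ _))
  refine ⟨x, hx1, hx5.1, hx5.2, hx3, fun y hy hyQ => hx4 y hy ?_⟩
  have := h6 h7 y hy hyQ
  rwa [mem_ball_iff_norm] at this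

/-- Cells: near an isolated nondegenerate critical point there is exactly one critical point of
`fpol en eta q` over a compact set `Q` of values, and it is near. -/
theorem tame_cell' {q : Tup n l} (h1 : T1 q) {w : Fin (n + 1) → ℂ} (hw : w ∈ CritF (f0 q))
    (hn : NonDegC (f0 q) w) {Q : Set ℂ} (hQ : IsCompact Q) (hQw : Q ∈ 𝓝 (w (Fin.last n)))
    (hu : ∀ x ∈ CritF (f0 q), x (Fin.last n) ∈ Q → x = w) {O : Set (Fin (n + 1) → ℂ)}
    (hO : O ∈ 𝓝 w) :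
    ∀ᶠ en in 𝓝[>] (0 : ℝ), ∀ᶠ eta in 𝓝[>] (0 : ℝ), ∃ x ∈ CritF (fpol en eta q), x ∈ O ∧
      NonDegC (fpol en eta q) x ∧ ∀ y ∈ CritF (fpol en eta q), y (Fin.last n) ∈ Q → y = x := by
  filter_upwards [self_mem_nhdsWithin] with en hen
  have h := tame_cell_at h1 hw hn hQ hQw hu hO hen
  have ht : Tendsto (fun eta : ℝ => (eta, q)) (𝓝[>] (0 : ℝ)) (𝓝 (0, q)) := by
    have : Continuous fun eta : ℝ => (eta, q) := by fun_prop
    exact (this.tendsto 0).mono_left nhdsWithin_le_nhds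
  filter_upwards [ht.eventually h, self_mem_nhdsWithin] with eta h2 h3
  obtain ⟨x, hx1, hx2, -, hx4, hx5⟩ := h2 (le_of_lt h3)
  exact ⟨x, hx1, hx2, hx4, hx5⟩

end Pool.Agent.QC
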