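import Pool.Agent.QC.Tame.Cond
import Pool.Agent.QC.Tame.Ift

set_option autoImplicit false

/-!
# (3.1) consequences of the implicit function theorem; stability of negative definiteness
-/

namespace Pool.Agent.QC

open Filter Topology Finset MvPolynomial

variable {n l : ℕ}

/-- Near a nondegenerate critical point there is exactly one critical point (`eta = 0`). -/
theorem crit_near' {q : Tup n l} {x : Fin (n + 1) → ℂ} (hx : x ∈ CritF (f0 q))
    (hn : NonDegC (f0 q) x) : ∃ O ∈ 𝓝 x, ∀ O' ∈ 𝓝 x, ∀ᶠ q' in 𝓝 q,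
      ∃ y ∈ CritF (f0 q') ∩ O', NonDegC (f0 q') y ∧ ∀ y' ∈ CritF (f0 q') ∩ O, y' = y := by
  obtain ⟨ρ0, hρ0, h⟩ := ift_crit 0 q x hx hn
  refine ⟨Metric.ball x ρ0, Metric.ball_mem_nhds x hρ0, fun O' hO' => ?_⟩
  obtain ⟨ρ, hρ, hρO⟩ := Metric.mem_nhds_iff.mp hO'
  have h1 := h (min ρ ρ0) (lt_min hρ hρ0) (min_le_right _ _)
  have h2 : Tendsto (fun q' : Tup n l => (q', (0 : ℝ))) (𝓝 q) (𝓝 (q, (0 : ℝ))) := by
    have : Continuous (fun q' : Tup n l => (q', (0 : ℝ))) := by fun_prop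
    exact this.tendsto q
  filter_upwards [h2.eventually h1] with q' hq'
  obtain ⟨y, ⟨hy1, hy2, hy3⟩, hy4⟩ := hq'
  simp only [fpol_zero] at hy1 hy3 hy4
  refine ⟨y, ⟨hy1, hρO ?_⟩, hy3, fun y' hy' => hy4 y' hy'.1 ?_⟩
  · rw [Metric.mem_ball, dist_eq_norm]
    exact lt_of_lt_of_le hy2 (min_le_left _ _)
  · rw [← dist_eq_norm]
    exact Metric.mem_ball.mp hy'.2

lemma eval_xC_real_pow {m : ℕ} (x : Fin m → ℝ) (k : Fin m) (D : ℕ) :
    (xC x k ^ D : ℂ) = ((x k ^ D : ℝ) : ℂ) := by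
  simp [xC]

/-- The `x'` Hessian of the auxiliary form. -/
lemma hess'_Eform (en : ℝ) (x : Fin (n + 1) → ℂ) (i j : Fin n) :
    eval x (pderiv i.castSucc (pderiv j.castSucc (Eform l en : Pol (n + 1)))) =
      if i = j then (DD l : ℂ) * ((DD l - 1 : ℕ) : ℂ) * x i.castSucc ^ (DD l - 2) else 0 := by
  classical
  have h1 : pderiv j.castSucc (Eform l en : Pol (n + 1)) =
      C (DD l : ℂ) * X j.castSucc ^ (DD l - 1) := by
    rw [Eform, map_add, map_sum, Finset.sum_eq_single j]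
    · rw [Derivation.leibniz_pow, pderiv_X_self, Derivation.leibniz, pderiv_C, smul_zero,
        add_zero, Derivation.leibniz_pow, pderiv_X_of_ne (Fin.castSucc_ne_last j).symm]
      have e2 : (C 2 : Pol (n + 1)) = 2 := map_ofNat C 2
      have e4 : (C 4 : Pol (n + 1)) = 4 := map_ofNat C 4
      simp [e2, e4]
    · intro k _ hk
      rw [Derivation.leibniz_pow, pderiv_X_of_ne (fun h => hk (Fin.castSucc_injective n h))]
      simp
    · intro h
      exact absurd (Finset.mem_univ j) h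
  rw [h1, Derivation.leibniz, pderiv_C, smul_zero, add_zero, Derivation.leibniz_pow]
  by_cases h : i = j
  · subst h
    rw [pderiv_X_self, if_pos rfl]
    have h2 : DD l - 1 - 1 = DD l - 2 := by omega
    rw [h2]
    simp
    ring
  · rw [pderiv_X_of_ne (fun h' => h (Fin.castSucc_injective n h').symm), if_neg h]
    simp

lemma hess'_fpol (en eta : ℝ) (q : Tup n l) (x : Fin (n + 1) → ℂ) (i j : Fin n) :
    hess' (fpol en eta q) x i j = hess' (f0 q) x i j - (eta : ℂ) *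
      (if i = j then (DD l : ℂ) * ((DD l - 1 : ℕ) : ℂ) * x i.castSucc ^ (DD l - 2) else 0) := by
  rw [← hess'_Eform en x i j]
  simp only [hess', fpol]
  rw [map_sub, map_sub, map_sub, Derivation.leibniz, pderiv_C, smul_zero, add_zero, smul_eq_mul,
    Derivation.leibniz, pderiv_C, smul_zero, add_zero, smul_eq_mul, map_mul, eval_C]

/-- Negative definiteness of `Hess'` at a real point is stable. -/
theorem tame_neg' {q : RTup n l} {w : Fin (n + 1) → ℝ}
    (hneg : ∀ b : Fin n → ℝ, b ≠ 0 →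
      ∑ i, ∑ j, b i * b j * (hess' (f0 (tC q)) (xC w) i j).re < 0) :
    ∃ O ∈ 𝓝 w, ∀ᶠ en in 𝓝[>] (0 : ℝ), ∀ᶠ eta in 𝓝[>] (0 : ℝ), ∀ x ∈ O,
      ∀ b : Fin n → ℝ, b ≠ 0 →
        ∑ i, ∑ j, b i * b j * (hess' (fpol en eta (tC q)) (xC x) i j).re < 0 := by
  have hxC : Continuous (fun x : Fin (n + 1) → ℝ => xC x) := by
    unfold xC
    fun_prop
  have hc : Continuous (fun v : (Fin (n + 1) → ℝ) × (Fin n → ℝ) =>
      ∑ i, ∑ j, v.2 i * v.2 j * (hess' (f0 (tC q)) (xC v.1) i j).re) := by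
    refine continuous_finsetSum _ fun i _ => continuous_finsetSum _ fun j _ => ?_
    have h1 : Continuous (fun v : (Fin (n + 1) → ℝ) × (Fin n → ℝ) =>
        hess' (f0 (tC q)) (xC v.1) i j) := by
      unfold hess'
      exact (MvPolynomial.continuous_eval _).comp (hxC.comp continuous_fst)
    have h2 := Complex.continuous_re.comp h1
    fun_prop
  have hS : IsCompact (Metric.sphere (0 : Fin n → ℝ) 1) := isCompact_sphere _ _
  have hev : ∀ᶠ x in 𝓝 w, ∀ b ∈ Metric.sphere (0 : Fin n → ℝ) 1,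
      ∑ i, ∑ j, b i * b j * (hess' (f0 (tC q)) (xC x) i j).re < 0 := by
    refine hS.eventually_forall_of_forall_eventually fun b hb => ?_
    have hb0 : b ≠ 0 := by
      rintro rfl
      simp at hb
    exact (hc.continuousAt (x := (w, b))).eventually_lt continuousAt_const (hneg b hb0)
  refine ⟨_, hev, ?_⟩
  filter_upwards [self_mem_nhdsWithin] with en _
  filter_upwards [self_mem_nhdsWithin] with eta heta x hx b hb
  have heta : 0 < eta := heta
  have hx : ∀ b ∈ Metric.sphere (0 : Fin n → ℝ) 1,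
      ∑ i, ∑ j, b i * b j * (hess' (f0 (tC q)) (xC x) i j).re < 0 := hx
  have hnb : 0 < ‖b‖ := norm_pos_iff.mpr hb
  have h1 := hx (‖b‖⁻¹ • b) (by
    rw [mem_sphere_zero_iff_norm, norm_smul, norm_inv, norm_norm, inv_mul_cancel₀ hnb.ne'])
  have h2 : ∑ i, ∑ j, b i * b j * (hess' (f0 (tC q)) (xC x) i j).re < 0 := by
    have h3 : ∑ i, ∑ j, (‖b‖⁻¹ • b) i * (‖b‖⁻¹ • b) j * (hess' (f0 (tC q)) (xC x) i j).re =
        (‖b‖⁻¹) ^ 2 * ∑ i, ∑ j, b i * b j * (hess' (f0 (tC q)) (xC x) i j).re := by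
      rw [Finset.mul_sum]
      refine Finset.sum_congr rfl fun i _ => ?_
      rw [Finset.mul_sum]
      refine Finset.sum_congr rfl fun j _ => ?_
      simp only [Pi.smul_apply, smul_eq_mul]
      ring
    rw [h3] at h1
    exact (pos_iff_neg_of_mul_neg h1).mp (by positivity)
  have h4 : ∑ i, ∑ j, b i * b j * (hess' (fpol en eta (tC q)) (xC x) i j).re =
      ∑ i, ∑ j, b i * b j * (hess' (f0 (tC q)) (xC x) i j).re -
      ∑ i : Fin n, eta * ((DD l : ℝ) * ((DD l - 1 : ℕ) : ℝ) *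
        (b i ^ 2 * x i.castSucc ^ (DD l - 2))) := by
    rw [← Finset.sum_sub_distrib]
    refine Finset.sum_congr rfl fun i _ => ?_
    have h5 : ∀ j, b i * b j * (hess' (fpol en eta (tC q)) (xC x) i j).re =
        b i * b j * (hess' (f0 (tC q)) (xC x) i j).re - (if i = j then
          eta * ((DD l : ℝ) * ((DD l - 1 : ℕ) : ℝ) *
            (b i ^ 2 * x i.castSucc ^ (DD l - 2))) else 0) := by
      intro j
      rw [hess'_fpol]
      by_cases hij : i = j
      · subst hij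
        rw [if_pos rfl, if_pos rfl, eval_xC_real_pow]
        have h6 : ((eta : ℂ) * ((DD l : ℂ) * ((DD l - 1 : ℕ) : ℂ) *
            ((x i.castSucc ^ (DD l - 2) : ℝ) : ℂ))).re =
            eta * ((DD l : ℝ) * ((DD l - 1 : ℕ) : ℝ) * x i.castSucc ^ (DD l - 2)) := by
          rw [← Complex.ofReal_natCast, ← Complex.ofReal_natCast, ← Complex.ofReal_mul,
            ← Complex.ofReal_mul, ← Complex.ofReal_mul, Complex.ofReal_re]
        rw [Complex.sub_re, h6]
        ring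
      · rw [if_neg hij, if_neg hij, mul_zero, sub_zero, sub_zero]
    rw [Finset.sum_congr rfl fun j _ => h5 j, Finset.sum_sub_distrib]
    simp
  rw [h4]
  have h7 : 0 ≤ ∑ i : Fin n, eta * ((DD l : ℝ) * ((DD l - 1 : ℕ) : ℝ) *
      (b i ^ 2 * x i.castSucc ^ (DD l - 2))) := by
    refine Finset.sum_nonneg fun i _ => ?_
    have h8 : 0 ≤ x i.castSucc ^ (DD l - 2) := by
      refine Even.pow_nonneg ?_ _
      exact ⟨l + 1, by show 2 * l + 4 - 2 = l + 1 + (l + 1); omega⟩
    positivity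
  linarith

end Pool.Agent.QC
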