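import Pool.Agent.QC.Inst
import Pool.Agent.QC.Tame.Cell
import Pool.Agent.QC.Tame.Near

/-!
# MP_7c50a9_lc, 3.1: tameness, interface

`P.f q = f0 q - eta E`; first `en` small, then `eta` small (uniformly on compact sets).
-/

namespace Pool.Agent.QC

open MvPolynomial Filter Topology Set

variable {n l : ℕ}

/-- At `eta = 0` the critical values are bounded on compact sets. -/
theorem sig_bounded {K : Set (Tup n l)} (hK : IsCompact K) (h0 : ∀ q ∈ K, T0 q)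
    (h1 : ∀ q ∈ K, T1 q) : ∃ R : ℝ, ∀ q ∈ K, ∀ x ∈ CritF (f0 q), ∀ i, ‖x i‖ < R := by
  obtain ⟨C, hC⟩ := crit0_bounded hK h0 h1
  exact ⟨C + 1, fun q hq x hx i =>
    ((norm_le_pi_norm x i).trans (hC q hq x hx)).trans_lt (lt_add_one C)⟩

/-- At `eta = 0` the condition `z ∉ Sigma q` is open. -/
theorem notSig_open {q : Tup n l} {z : ℂ} (h0 : T0 q) (h1 : T1 q) (hz : z ∉ SigF (f0 q)) :
    ∀ᶠ p in 𝓝 (q, z), p.2 ∉ SigF (f0 p.1) := by
  have _ := h0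
  exact notSig_open' h1 hz

/-- Near a nondegenerate critical point there is exactly one critical point (`eta = 0`). -/
theorem crit_near {q : Tup n l} {x : Fin (n + 1) → ℂ} (hx : x ∈ CritF (f0 q))
    (hn : NonDegC (f0 q) x) : ∃ O ∈ 𝓝 x, ∀ O' ∈ 𝓝 x, ∀ᶠ q' in 𝓝 q,
      ∃ y ∈ CritF (f0 q') ∩ O', NonDegC (f0 q') y ∧ ∀ y' ∈ CritF (f0 q') ∩ O, y' = y :=
  crit_near' hx hn

/-- `T0` and `T1` are open. -/
theorem T0_open : IsOpen {q : Tup n l | T0 q} := T0_open'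

theorem T1_open : IsOpen {q : Tup n l | T1 q} := T1_open'

/-- `T0` does not change under frames. -/
theorem T0_shT {q : Tup n l} (h : T0 q) (c : Fin n → ℂ) : T0 (shT c q) := T0_shT' h c

/-- No singular points for small `en`, then small `eta`. -/
theorem tame_sing {K : Set (Tup n l)} (hK : IsCompact K) (h0 : ∀ q ∈ K, T0 q)
    (hs : ∀ q ∈ K, SingF (f0 q) = ∅) :
    ∀ᶠ en in 𝓝[>] (0 : ℝ), ∀ᶠ eta in 𝓝[>] (0 : ℝ), ∀ q ∈ K, SingF (fpol en eta q) = ∅ :=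
  (tame_sing_ge hK h0 hs).mono fun _ h => h.filter_mono (nhdsWithin_mono _ Ioi_subset_Ici_self)

/-- A compact set of non-critical values stays non-critical. -/
theorem tame_sig {K : Set (Tup n l × ℂ)} (hK : IsCompact K) (h1 : ∀ p ∈ K, T1 p.1)
    (hs : ∀ p ∈ K, p.2 ∉ SigF (f0 p.1)) :
    ∀ᶠ en in 𝓝[>] (0 : ℝ), ∀ᶠ eta in 𝓝[>] (0 : ℝ), ∀ p ∈ K, p.2 ∉ SigF (fpol en eta p.1) := by
  filter_upwards [self_mem_nhdsWithin] with en hen
  exact (tame_crit hK h1 hs hen).filter_mono (nhdsWithin_mono _ Ioi_subset_Ici_self)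

/-- Cells: near an isolated nondegenerate critical point there is exactly one critical point of
`fpol en eta q` over a compact set `Q` of values, and it is near. -/
theorem tame_cell {q : Tup n l} (h1 : T1 q) {w : Fin (n + 1) → ℂ} (hw : w ∈ CritF (f0 q))
    (hn : NonDegC (f0 q) w) {Q : Set ℂ} (hQ : IsCompact Q) (hQw : Q ∈ 𝓝 (w (Fin.last n)))
    (hu : ∀ x ∈ CritF (f0 q), x (Fin.last n) ∈ Q → x = w) {O : Set (Fin (n + 1) → ℂ)}
    (hO : O ∈ 𝓝 w) :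
    ∀ᶠ en in 𝓝[>] (0 : ℝ), ∀ᶠ eta in 𝓝[>] (0 : ℝ), ∃ x ∈ CritF (fpol en eta q), x ∈ O ∧
      NonDegC (fpol en eta q) x ∧ ∀ y ∈ CritF (fpol en eta q), y (Fin.last n) ∈ Q → y = x :=
  tame_cell' h1 hw hn hQ hQw hu hO

/-- Negative definiteness of `Hess'` at a real point is stable. -/
theorem tame_neg {q : RTup n l} {w : Fin (n + 1) → ℝ}
    (hneg : ∀ b : Fin n → ℝ, b ≠ 0 →
      ∑ i, ∑ j, b i * b j * (hess' (f0 (tC q)) (xC w) i j).re < 0) :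
    ∃ O ∈ 𝓝 w, ∀ᶠ en in 𝓝[>] (0 : ℝ), ∀ᶠ eta in 𝓝[>] (0 : ℝ), ∀ x ∈ O,
      ∀ b : Fin n → ℝ, b ≠ 0 →
        ∑ i, ∑ j, b i * b j * (hess' (fpol en eta (tC q)) (xC x) i j).re < 0 :=
  tame_neg' hneg

end Pool.Agent.QC
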