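import Pool.Agent.QC.Rec

set_option autoImplicit false

/-!
# Complex conjugation and critical points for real tuples
-/

namespace Pool.Agent.QC

open Filter Topology Finset MvPolynomial

variable {n l : ℕ}

/-- Coordinatewise complex conjugation. -/
noncomputable def cj {m : ℕ} (x : Fin m → ℂ) : Fin m → ℂ := fun i => (starRingEnd ℂ) (x i)

@[simp] lemma cj_apply {m : ℕ} (x : Fin m → ℂ) (i : Fin m) : cj x i = (starRingEnd ℂ) (x i) := rfl

@[simp] lemma cj_cj {m : ℕ} (x : Fin m → ℂ) : cj (cj x) = x := by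
  funext i
  simp

lemma continuous_cj {m : ℕ} : Continuous (cj : (Fin m → ℂ) → Fin m → ℂ) := by
  refine continuous_pi fun i => ?_
  exact Complex.continuous_conj.comp (continuous_apply i)

lemma cj_xC {m : ℕ} (x : Fin m → ℝ) : cj (xC x) = xC x := by
  funext i
  simp [xC]

lemma xC_of_cj_eq {m : ℕ} {x : Fin m → ℂ} (h : cj x = x) : xC (fun i => (x i).re) = x := by
  funext i
  exact Complex.conj_eq_iff_re.1 (congrFun h i)

lemma eval_cj {m : ℕ} (f : Pol m) (x : Fin m → ℂ) :
    eval (cj x) (MvPolynomial.map (starRingEnd ℂ) f) = (starRingEnd ℂ) (eval x f) := by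
  induction f using MvPolynomial.induction_on with
  | C a => simp
  | add p q hp hq => simp only [map_add, hp, hq]
  | mul_X p i hp => simp only [map_mul, hp, map_X, eval_X, cj_apply]

lemma map_conj_qpol {N : ℕ} (p : QP ℝ N) :
    MvPolynomial.map (starRingEnd ℂ) (qpol ((fun i j => (p.1 i j : ℂ), fun i => (p.2.1 i : ℂ),
      (p.2.2 : ℂ)) : QPc N)) = qpol ((fun i j => (p.1 i j : ℂ), fun i => (p.2.1 i : ℂ),
      (p.2.2 : ℂ)) : QPc N) := by
  simp only [qpol, map_add, map_sum, map_mul, map_X, map_C, Complex.conj_ofReal]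

lemma map_conj_fpol (en eta : ℝ) (q : RTup n l) :
    MvPolynomial.map (starRingEnd ℂ) (fpol en eta (tC q)) = fpol en eta (tC q) := by
  have h1 : MvPolynomial.map (starRingEnd ℂ) (prodT (tC q)) = prodT (tC q) := by
    rw [prodT, map_prod]
    exact Finset.prod_congr rfl fun m _ => map_conj_qpol (q m)
  rw [fpol, f0, map_sub, map_sub, h1, map_one, map_mul, map_C, Complex.conj_ofReal]
  congr 2
  simp only [Eform, map_add, map_sum, map_pow, map_X, map_mul, map_C, Complex.conj_ofReal]

/-- The critical points of a real tuple are invariant under conjugation. -/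
theorem cj_mem_CritF {en eta : ℝ} {q : RTup n l} {x : Fin (n + 1) → ℂ}
    (hx : x ∈ CritF (fpol en eta (tC q))) : cj x ∈ CritF (fpol en eta (tC q)) := by
  refine ⟨?_, fun i => ?_⟩
  · rw [← map_conj_fpol en eta q, eval_cj, hx.1, map_zero]
  · have h := map_conj_fpol en eta q
    rw [← h, pderiv_map, eval_cj, hx.2 i, map_zero]

theorem cj_mem_CritF0 {q : RTup n l} {x : Fin (n + 1) → ℂ}
    (hx : x ∈ CritF (f0 (tC q))) : cj x ∈ CritF (f0 (tC q)) := by
  have h : fpol 0 0 (tC q) = f0 (tC q) := by simp [fpol]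
  rw [← h] at hx ⊢
  exact cj_mem_CritF hx

/-- The singular points of a real tuple are invariant under conjugation. -/
theorem cj_mem_SingF {en eta : ℝ} {q : RTup n l} {x : Fin (n + 1) → ℂ}
    (hx : x ∈ SingF (fpol en eta (tC q))) : cj x ∈ SingF (fpol en eta (tC q)) := by
  refine ⟨?_, fun i => ?_⟩
  · rw [← map_conj_fpol en eta q, eval_cj, hx.1, map_zero]
  · have h := map_conj_fpol en eta q
    rw [← h, pderiv_map, eval_cj, hx.2 i, map_zero]

/-- The critical values of a real tuple are invariant under conjugation. -/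
theorem conj_mem_SigF {en eta : ℝ} {q : RTup n l} {z : ℂ}
    (hz : z ∈ SigF (fpol en eta (tC q))) : (starRingEnd ℂ) z ∈ SigF (fpol en eta (tC q)) := by
  obtain ⟨x, hx, rfl⟩ := hz
  exact ⟨cj x, cj_mem_CritF hx, rfl⟩

/-- `T1` does not depend on the level. -/
theorem T1_addT {q : Tup n l} (h : T1 q) (t : ℂ) : T1 (addT q t) := by
  have h1 : ∀ (m : Fin (l + 1)) (ξ : Fin (n + 1) → ℂ), qform (addT q t m) ξ = qform (q m) ξ := by
    intro m ξ
    by_cases hm : m = 0
    · subst hm
      simp [addT, qform]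
    · simp [addT, hm]
  have h2 : ∀ (m : Fin (l + 1)) (k : Fin (n + 1)) (ξ : Fin (n + 1) → ℂ),
      qfgrad (addT q t m) k ξ = qfgrad (q m) k ξ := by
    intro m k ξ
    by_cases hm : m = 0
    · subst hm
      simp [addT, qfgrad]
    · simp [addT, hm]
  intro ξ hξ hξ' c κ hc hc'
  simp only [h1, h2] at hc hc'
  exact h ξ hξ hξ' c κ hc hc'

end Pool.Agent.QC
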