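import Pool.Agent.QC.Rec

set_option autoImplicit false

/-!
# Uniform tameness (3.1): the condition (T), values and derivatives of `f`
-/

namespace Pool.Agent.QC

open Filter Topology Finset MvPolynomial

variable {n l : ℕ}

/-- Condition `(T)` for the form `sum_{i < n} x_i ^ D + en x_n ^ D`. -/
def TT (en : ℝ) (q : Tup n l) : Prop :=
  ∀ ξ : Fin (n + 1) → ℂ, ξ ≠ 0 → ∀ (c : Fin (l + 1) → ℂ) (κ : ℂ),
    (∀ m, c m * qform (q m) ξ = 0) →
    (∀ i : Fin n, ∑ m, c m * qfgrad (q m) i.castSucc ξ = κ * ξ i.castSucc ^ (DD l - 1)) →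
    (∑ m, c m * qfgrad (q m) (Fin.last n) ξ =
      κ * ((en : ℂ) * ξ (Fin.last n) ^ (DD l - 1))) → c = 0 ∧ κ = 0

/-- the weights `(1, ..., 1, en)` -/
def wts (n : ℕ) (en : ℝ) : Fin (n + 1) → ℝ := Fin.snoc (fun _ => 1) en

@[simp] lemma wts_castSucc (en : ℝ) (k : Fin n) : wts n en k.castSucc = 1 := by
  simp [wts]

@[simp] lemma wts_last (en : ℝ) : wts n en (Fin.last n) = en := by
  simp [wts]

lemma wts_pos {en : ℝ} (hen : 0 < en) (k : Fin (n + 1)) : 0 < wts n en k := by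
  refine Fin.lastCases ?_ (fun k => ?_) k
  · simpa using hen
  · simp

lemma sum_wts (en : ℝ) (x : Fin (n + 1) → ℂ) (D : ℕ) :
    ∑ k, (wts n en k : ℂ) * x k ^ D = (∑ i : Fin n, x i.castSucc ^ D) +
      (en : ℂ) * x (Fin.last n) ^ D := by
  rw [Fin.sum_univ_castSucc]
  simp

lemma eval_f0 (q : Tup n l) (x : Fin (n + 1) → ℂ) :
    eval x (f0 q) = ∏ m, qval (q m) x - 1 := by
  simp [f0, prodT, eval_qpol]

lemma eval_fpol (en eta : ℝ) (q : Tup n l) (x : Fin (n + 1) → ℂ) :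
    eval x (fpol en eta q) = ∏ m, qval (q m) x - 1 -
      (eta : ℂ) * ∑ k, (wts n en k : ℂ) * x k ^ DD l := by
  rw [sum_wts, fpol, map_sub, eval_f0]
  simp [Eform]

lemma pderiv_prod' {ι σ : Type*} [DecidableEq ι] (k : σ) (P : ι → MvPolynomial σ ℂ)
    (s : Finset ι) :
    pderiv k (∏ m ∈ s, P m) = ∑ m ∈ s, (∏ m' ∈ s.erase m, P m') * pderiv k (P m) := by
  induction s using Finset.induction_on with
  | empty => simp
  | insert a s ha ih =>
    rw [Finset.prod_insert ha, Derivation.leibniz, ih, Finset.sum_insert ha,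
      Finset.erase_insert ha, smul_eq_mul, smul_eq_mul, add_comm, Finset.mul_sum]
    congr 1
    refine Finset.sum_congr rfl (fun m hm => ?_)
    have hma : m ≠ a := fun h => ha (h ▸ hm)
    rw [Finset.erase_insert_of_ne hma.symm, Finset.prod_insert
      (fun h => ha (Finset.mem_of_mem_erase h))]
    ring

lemma eval_pderiv_prodT (q : Tup n l) (x : Fin (n + 1) → ℂ) (k : Fin (n + 1)) :
    eval x (pderiv k (prodT q)) = ∑ m, copr q x m * qgrad (q m) k x := by
  rw [prodT, pderiv_prod', map_sum]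
  refine Finset.sum_congr rfl (fun m _ => ?_)
  rw [map_mul, eval_pderiv_qpol, eval_prod, copr]
  congr 1
  exact Finset.prod_congr rfl (fun m' _ => eval_qpol _ _)

lemma Eform_eq (en : ℝ) : (Eform l en : Pol (n + 1)) =
    ∑ k, C ((wts n en k : ℝ) : ℂ) * X k ^ DD l := by
  rw [Fin.sum_univ_castSucc]
  simp [Eform]

lemma eval_pderiv_Eform (en : ℝ) (x : Fin (n + 1) → ℂ) (k : Fin (n + 1)) :
    eval x (pderiv k (Eform l en : Pol (n + 1))) =
      (DD l : ℂ) * (wts n en k : ℂ) * x k ^ (DD l - 1) := by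
  classical
  rw [Eform_eq, map_sum, map_sum, Finset.sum_eq_single k]
  · rw [Derivation.leibniz, pderiv_C, smul_zero, add_zero, Derivation.leibniz_pow, pderiv_X_self]
    simp
    ring
  · intro j _ hj
    rw [Derivation.leibniz, pderiv_C, smul_zero, add_zero, Derivation.leibniz_pow,
      pderiv_X_of_ne hj]
    simp
  · intro h
    exact absurd (Finset.mem_univ k) h

lemma eval_pderiv_fpol (en eta : ℝ) (q : Tup n l) (x : Fin (n + 1) → ℂ) (k : Fin (n + 1)) :
    eval x (pderiv k (fpol en eta q)) = ∑ m, copr q x m * qgrad (q m) k x -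
      (eta : ℂ) * ((DD l : ℂ) * (wts n en k : ℂ) * x k ^ (DD l - 1)) := by
  rw [fpol, f0, map_sub, map_sub, map_sub, map_sub, eval_pderiv_prodT, Derivation.leibniz,
    pderiv_C, smul_zero, add_zero, smul_eq_mul, map_mul, eval_C, eval_pderiv_Eform]
  simp

/-- the coordinates `x'` -/
def Jc (n : ℕ) : Finset (Fin (n + 1)) := univ.erase (Fin.last n)

lemma mem_Jc (k : Fin (n + 1)) : k ∈ Jc n ↔ k ≠ Fin.last n := by simp [Jc]

lemma castSucc_mem_Jc (k : Fin n) : k.castSucc ∈ Jc n := by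
  rw [mem_Jc]
  exact Fin.castSucc_ne_last k

lemma mem_CritF (en eta : ℝ) (q : Tup n l) (x : Fin (n + 1) → ℂ) :
    x ∈ CritF (fpol en eta q) ↔
      (∏ m, qval (q m) x = 1 + (eta : ℂ) * ∑ k, (wts n en k : ℂ) * x k ^ DD l) ∧
      ∀ k ∈ Jc n, ∑ m, copr q x m * qgrad (q m) k x =
        (eta : ℂ) * ((DD l : ℂ) * (wts n en k : ℂ) * x k ^ (DD l - 1)) := by
  have e1 : x ∈ CritF (fpol en eta q) ↔ eval x (fpol en eta q) = 0 ∧
      ∀ i : Fin n, eval x (pderiv i.castSucc (fpol en eta q)) = 0 := Iff.rfl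
  rw [e1, eval_fpol]
  refine and_congr ⟨fun h => by linear_combination h, fun h => by linear_combination h⟩
    ⟨fun h k hk => ?_, fun h i => ?_⟩
  · obtain ⟨i, rfl⟩ : ∃ i : Fin n, i.castSucc = k :=
      Fin.exists_castSucc_eq.2 ((mem_Jc k).1 hk)
    have := h i
    rw [eval_pderiv_fpol] at this
    linear_combination this
  · rw [eval_pderiv_fpol, h _ (castSucc_mem_Jc i), sub_self]

lemma mem_SingF (en eta : ℝ) (q : Tup n l) (x : Fin (n + 1) → ℂ) :
    x ∈ SingF (fpol en eta q) ↔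
      (∏ m, qval (q m) x = 1 + (eta : ℂ) * ∑ k, (wts n en k : ℂ) * x k ^ DD l) ∧
      ∀ k ∈ (univ : Finset (Fin (n + 1))), ∑ m, copr q x m * qgrad (q m) k x =
        (eta : ℂ) * ((DD l : ℂ) * (wts n en k : ℂ) * x k ^ (DD l - 1)) := by
  have e1 : x ∈ SingF (fpol en eta q) ↔ eval x (fpol en eta q) = 0 ∧
      ∀ i, eval x (pderiv i (fpol en eta q)) = 0 := Iff.rfl
  rw [e1, eval_fpol]
  refine and_congr ⟨fun h => by linear_combination h, fun h => by linear_combination h⟩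
    ⟨fun h k _ => ?_, fun h i => ?_⟩
  · have := h k
    rw [eval_pderiv_fpol] at this
    linear_combination this
  · rw [eval_pderiv_fpol, h i (Finset.mem_univ i), sub_self]

lemma fpol_zero (en : ℝ) (q : Tup n l) : fpol en 0 q = f0 q := by
  simp [fpol]

end Pool.Agent.QC
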