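import Pool.Agent.QC.Defs

set_option autoImplicit false

/-!
# Uniform tameness (3.1): the compactness core
-/

namespace Pool.Agent.QC

open Filter Topology Finset MvPolynomial

section Basic

variable {N : ℕ}

/-- value of a quadratic polynomial -/
def qval (p : QPc N) (x : Fin N → ℂ) : ℂ :=
  (∑ i, ∑ j, p.1 i j * x i * x j) + (∑ i, p.2.1 i * x i) + p.2.2

/-- partial derivative of a quadratic polynomial -/
def qgrad (p : QPc N) (k : Fin N) (x : Fin N → ℂ) : ℂ :=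
  (∑ j, (p.1 k j + p.1 j k) * x j) + p.2.1 k

/-- the quadratic part -/
def qform (p : QPc N) (x : Fin N → ℂ) : ℂ := ∑ i, ∑ j, p.1 i j * x i * x j

/-- partial derivative of the quadratic part -/
def qfgrad (p : QPc N) (k : Fin N) (x : Fin N → ℂ) : ℂ := ∑ j, (p.1 k j + p.1 j k) * x j

lemma eval_qpol (p : QPc N) (x : Fin N → ℂ) : eval x (qpol p) = qval p x := by
  simp [qpol, qval, map_sum]

lemma eval_pderiv_qpol (p : QPc N) (k : Fin N) (x : Fin N → ℂ) :
    eval x (pderiv k (qpol p)) = qgrad p k x := by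
  simp only [qpol, qgrad, map_add, map_sum, Derivation.leibniz, pderiv_C, pderiv_X, smul_eq_mul,
    eval_mul, eval_C, eval_X, mul_zero, add_zero]
  have h1 : ∀ i j : Fin N, (eval x) (Pi.single (M := fun _ => MvPolynomial (Fin N) ℂ) i 1 j) =
      if j = i then 1 else 0 := by
    intro i j
    by_cases h : j = i
    · subst h; simp
    · simp [h]
  simp only [h1]
  have h2 : ∀ i : Fin N, ∑ j : Fin N, (p.1 i j * x i * (if j = k then (1 : ℂ) else 0) +
      x j * (p.1 i j * (if i = k then (1 : ℂ) else 0))) = p.1 i k * x i +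
      (if i = k then ∑ j, p.1 k j * x j else 0) := by
    intro i
    rw [Finset.sum_add_distrib]
    congr 1
    · simp
    · split_ifs with h
      · subst h
        exact Finset.sum_congr rfl (fun j _ => by ring)
      · simp
  rw [Finset.sum_congr rfl (fun i _ => h2 i), Finset.sum_add_distrib]
  simp only [Finset.sum_ite_eq', Finset.mem_univ, if_true, mul_ite, mul_one, mul_zero, add_mul,
    Finset.sum_add_distrib]
  ring

lemma euler (p : QPc N) (x : Fin N → ℂ) :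
    ∑ k, x k * qgrad p k x = 2 * qval p x - (∑ k, p.2.1 k * x k) - 2 * p.2.2 := by
  have h : ∑ k, x k * qgrad p k x =
      2 * (∑ i, ∑ j, p.1 i j * x i * x j) + ∑ k, p.2.1 k * x k := by
    simp only [qgrad, mul_add, Finset.sum_add_distrib, add_mul, Finset.mul_sum]
    have e1 : ∑ k, ∑ j, x k * (p.1 k j * x j) = ∑ i, ∑ j, p.1 i j * x i * x j :=
      Finset.sum_congr rfl (fun i _ => Finset.sum_congr rfl (fun j _ => by ring))
    have e2 : ∑ k, ∑ j, x k * (p.1 j k * x j) = ∑ i, ∑ j, p.1 i j * x i * x j := by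
      rw [Finset.sum_comm]
      exact Finset.sum_congr rfl (fun i _ => Finset.sum_congr rfl (fun j _ => by ring))
    have e3 : ∑ k, x k * p.2.1 k = ∑ k, p.2.1 k * x k :=
      Finset.sum_congr rfl (fun i _ => by ring)
    rw [e1, e2, e3]
    simp only [← Finset.mul_sum]
    ring
  rw [h, qval]
  ring

lemma qgrad_bound (p : QPc N) (B r : ℝ) (hB : ‖p‖ ≤ B) (hr : 1 ≤ r) (x : Fin N → ℂ)
    (hx : ‖x‖ ≤ r) (k : Fin N) : ‖qgrad p k x‖ ≤ (2 * N + 1) * B * r := by
  have hB0 : 0 ≤ B := (norm_nonneg p).trans hB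
  have h1 : ∀ i j, ‖p.1 i j‖ ≤ B := fun i j =>
    ((norm_le_pi_norm (p.1 i) j).trans (norm_le_pi_norm p.1 i)).trans ((norm_fst_le p).trans hB)
  have h2 : ‖p.2.1 k‖ ≤ B :=
    (norm_le_pi_norm p.2.1 k).trans ((norm_fst_le p.2).trans ((norm_snd_le p).trans hB))
  have h3 : ∀ j, ‖x j‖ ≤ r := fun j => (norm_le_pi_norm x j).trans hx
  unfold qgrad
  calc ‖(∑ j, (p.1 k j + p.1 j k) * x j) + p.2.1 k‖
      ≤ ‖∑ j, (p.1 k j + p.1 j k) * x j‖ + ‖p.2.1 k‖ := norm_add_le _ _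
    _ ≤ (∑ j : Fin N, (2 * B) * r) + B := by
        refine add_le_add ((norm_sum_le _ _).trans (Finset.sum_le_sum (fun j _ => ?_))) h2
        rw [norm_mul]
        refine mul_le_mul ((norm_add_le _ _).trans ?_) (h3 j) (norm_nonneg _) (by linarith)
        linarith [h1 k j, h1 j k]
    _ ≤ (2 * N + 1) * B * r := by
        rw [Finset.sum_const, Finset.card_univ, Fintype.card_fin, nsmul_eq_mul]
        nlinarith [mul_le_mul_of_nonneg_left hr hB0]

/-- Euler's formula up to `O(r)`, summed over the coordinates in `J` only. -/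
lemma euler_bound (p : QPc N) (B r R : ℝ) (hB : ‖p‖ ≤ B) (hr : 1 ≤ r) (hR : 0 ≤ R)
    (x : Fin N → ℂ) (hx : ‖x‖ ≤ r) (J : Finset (Fin N)) (hJ : ∀ k, k ∉ J → ‖x k‖ ≤ R) :
    ‖(∑ k ∈ J, x k * qgrad p k x) - 2 * qval p x‖ ≤
      (N * B + 2 * B + N * R * ((2 * N + 1) * B)) * r := by
  have hB0 : 0 ≤ B := (norm_nonneg p).trans hB
  have h2 : ∀ k, ‖p.2.1 k‖ ≤ B := fun k =>
    (norm_le_pi_norm p.2.1 k).trans ((norm_fst_le p.2).trans ((norm_snd_le p).trans hB))
  have h4 : ‖p.2.2‖ ≤ B := (norm_snd_le p.2).trans ((norm_snd_le p).trans hB)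
  have h3 : ∀ j, ‖x j‖ ≤ r := fun j => (norm_le_pi_norm x j).trans hx
  have e1 : (∑ k ∈ J, x k * qgrad p k x) - 2 * qval p x =
      -(∑ k, p.2.1 k * x k) - 2 * p.2.2 - ∑ k ∈ Jᶜ, x k * qgrad p k x := by
    have := euler p x
    rw [← Finset.sum_add_sum_compl J] at this
    linear_combination this
  rw [e1]
  have a1 : ‖∑ k, p.2.1 k * x k‖ ≤ N * B * r := by
    refine (norm_sum_le _ _).trans ?_
    calc ∑ k, ‖p.2.1 k * x k‖ ≤ ∑ _k : Fin N, B * r := by
          refine Finset.sum_le_sum (fun k _ => ?_)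
          rw [norm_mul]
          exact mul_le_mul (h2 k) (h3 k) (norm_nonneg _) hB0
      _ = N * B * r := by
          rw [Finset.sum_const, Finset.card_univ, Fintype.card_fin, nsmul_eq_mul]; ring
  have a2 : ‖∑ k ∈ Jᶜ, x k * qgrad p k x‖ ≤ N * R * ((2 * N + 1) * B) * r := by
    refine (norm_sum_le _ _).trans ?_
    calc ∑ k ∈ Jᶜ, ‖x k * qgrad p k x‖ ≤ ∑ _k ∈ Jᶜ, R * ((2 * N + 1) * B * r) := by
          refine Finset.sum_le_sum (fun k hk => ?_)
          rw [norm_mul]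
          exact mul_le_mul (hJ k (Finset.mem_compl.1 hk)) (qgrad_bound p B r hB hr x hx k)
            (norm_nonneg _) hR
      _ = (Jᶜ.card : ℝ) * (R * ((2 * N + 1) * B * r)) := by
          rw [Finset.sum_const, nsmul_eq_mul]
      _ ≤ N * (R * ((2 * N + 1) * B * r)) := by
          refine mul_le_mul_of_nonneg_right ?_ (by positivity)
          have : Jᶜ.card ≤ N := by simpa using Finset.card_le_univ (Jᶜ)
          exact_mod_cast this
      _ = N * R * ((2 * N + 1) * B) * r := by ring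
  have a3 : ‖2 * p.2.2‖ ≤ 2 * B * r := by
    rw [norm_mul]
    simp only [Complex.norm_ofNat]
    nlinarith [mul_le_mul_of_nonneg_left hr hB0]
  calc ‖-(∑ k, p.2.1 k * x k) - 2 * p.2.2 - ∑ k ∈ Jᶜ, x k * qgrad p k x‖
      ≤ ‖-(∑ k, p.2.1 k * x k) - 2 * p.2.2‖ + ‖∑ k ∈ Jᶜ, x k * qgrad p k x‖ := norm_sub_le _ _
    _ ≤ (‖-(∑ k, p.2.1 k * x k)‖ + ‖2 * p.2.2‖) + ‖∑ k ∈ Jᶜ, x k * qgrad p k x‖ := by
        gcongr
        exact norm_sub_le _ _
    _ ≤ (N * B * r + 2 * B * r) + N * R * ((2 * N + 1) * B) * r := by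
        rw [norm_neg]
        gcongr
    _ = _ := by ring

lemma continuous_qform : Continuous (fun z : QPc N × (Fin N → ℂ) => qform z.1 z.2) := by
  unfold qform
  fun_prop

lemma continuous_qval : Continuous (fun z : QPc N × (Fin N → ℂ) => qval z.1 z.2) := by
  unfold qval
  fun_prop

lemma continuous_qgrad (k : Fin N) :
    Continuous (fun z : QPc N × (Fin N → ℂ) => qgrad z.1 k z.2) := by
  unfold qgrad
  fun_prop

lemma continuous_qfgrad (k : Fin N) :
    Continuous (fun z : QPc N × (Fin N → ℂ) => qfgrad z.1 k z.2) := by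
  unfold qfgrad
  fun_prop

/-- the constant and linear coefficients are negligible -/
lemma qval_scale (p : QPc N) (x : Fin N → ℂ) (s : ℂ) :
    s ^ 2 * qval p x = qform p (s • x) + s * (∑ i, p.2.1 i * (s • x) i) + s ^ 2 * p.2.2 := by
  simp only [qval, qform, Pi.smul_apply, smul_eq_mul, mul_add, Finset.mul_sum]
  congr 1
  congr 1
  · exact Finset.sum_congr rfl (fun i _ => Finset.sum_congr rfl (fun j _ => by ring))
  · exact Finset.sum_congr rfl (fun i _ => by ring)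

lemma qgrad_scale (p : QPc N) (k : Fin N) (x : Fin N → ℂ) (s : ℂ) :
    s * qgrad p k x = qfgrad p k (s • x) + s * p.2.1 k := by
  simp only [qgrad, qfgrad, Pi.smul_apply, smul_eq_mul, mul_add, Finset.mul_sum]
  congr 1
  exact Finset.sum_congr rfl (fun i _ => by ring)

end Basic

section CoreThm

variable {ι : Type*} {N l : ℕ}

/-- product of all factors but the `m`-th -/
def copr (q : Fin (l + 1) → QPc N) (x : Fin N → ℂ) (m : Fin (l + 1)) : ℂ :=
  ∏ m' ∈ univ.erase m, qval (q m') x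

lemma copr_mul (q : Fin (l + 1) → QPc N) (x : Fin N → ℂ) (m : Fin (l + 1)) :
    copr q x m * qval (q m) x = ∏ m', qval (q m') x :=
  Finset.prod_erase_mul _ _ (Finset.mem_univ m)

/-- Case 1: all factors are large compared with `‖x‖`: impossible by Euler's formula. -/
lemma case_one (D : ℕ) (hD : 2 * (l + 1) < D) (w : Fin N → ℝ) (q : Fin (l + 1) → QPc N)
    (x : Fin N → ℂ) (J : Finset (Fin N)) (B R H : ℝ) (hR : 0 ≤ R) (hH : 0 ≤ H)
    (hB : ∀ m, ‖q m‖ ≤ B) (hx1 : 1 ≤ ‖x‖) (hJ : ∀ k, k ∉ J → ‖x k‖ ≤ R) (η : ℝ) (hη0 : 0 ≤ η)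
    (hηH : η ≤ H)
    (h0 : ∏ m, qval (q m) x = 1 + (η : ℂ) * ∑ k, (w k : ℂ) * x k ^ D)
    (h1 : ∀ k ∈ J, ∑ m, copr q x m * qgrad (q m) k x = (η : ℂ) * (D * (w k : ℂ) * x k ^ (D - 1)))
    (K : ℝ) (hK : 2 * ((l + 1) * (N * B + 2 * B + N * R * ((2 * N + 1) * B)) +
      D * (1 + H * ∑ k, |w k| * R ^ D)) + 1 ≤ K) :
    ∃ m, ‖qval (q m) x‖ ≤ K * ‖x‖ := by
  by_contra hcon
  push Not at hcon
  have hB0 : 0 ≤ B := (norm_nonneg _).trans (hB 0)
  set C : ℝ := N * B + 2 * B + N * R * ((2 * N + 1) * B) with hC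
  have hC0 : 0 ≤ C := by positivity
  set S : ℝ := ∑ k, |w k| * R ^ D with hS
  have hS0 : 0 ≤ S := Finset.sum_nonneg (fun k _ => by positivity)
  have hK1 : 1 ≤ K := by
    have : 0 ≤ 2 * ((l + 1) * C + D * (1 + H * S)) := by positivity
    linarith
  have hr0 : 0 < ‖x‖ := by linarith
  have hp1 : ∀ m, 1 ≤ ‖qval (q m) x‖ := fun m => by
    have := hcon m
    nlinarith
  have hp0 : ∀ m, qval (q m) x ≠ 0 := fun m => norm_pos_iff.1 (by linarith [hp1 m])
  set P : ℂ := ∏ m, qval (q m) x with hP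
  have hP0 : P ≠ 0 := Finset.prod_ne_zero_iff.2 (fun m _ => hp0 m)
  have hPK : K ≤ ‖P‖ := by
    rw [hP, norm_prod, ← Finset.mul_prod_erase univ _ (Finset.mem_univ (0 : Fin (l + 1)))]
    have a1 : K ≤ ‖qval (q 0) x‖ := by
      have := hcon 0
      nlinarith
    have a2 : 1 ≤ ∏ m ∈ univ.erase (0 : Fin (l + 1)), ‖qval (q m) x‖ := by
      calc (1 : ℝ) = ∏ m ∈ univ.erase (0 : Fin (l + 1)), (1 : ℝ) := by simp
        _ ≤ _ := Finset.prod_le_prod (fun _ _ => zero_le_one) (fun m _ => hp1 m)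
    nlinarith
  -- Euler
  have e1 : ∑ m, copr q x m * (∑ k ∈ J, x k * qgrad (q m) k x) =
      (η : ℂ) * (D * ∑ k ∈ J, (w k : ℂ) * x k ^ D) := by
    have : ∑ k ∈ J, x k * ∑ m, copr q x m * qgrad (q m) k x =
        ∑ k ∈ J, x k * ((η : ℂ) * (D * (w k : ℂ) * x k ^ (D - 1))) :=
      Finset.sum_congr rfl (fun k hk => by rw [h1 k hk])
    have hD1 : ∀ k, x k * x k ^ (D - 1) = x k ^ D := fun k => by
      rw [← pow_succ', Nat.sub_add_cancel (by omega)]
    calc ∑ m, copr q x m * (∑ k ∈ J, x k * qgrad (q m) k x)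
        = ∑ k ∈ J, x k * ∑ m, copr q x m * qgrad (q m) k x := by
          simp only [Finset.mul_sum]
          rw [Finset.sum_comm]
          exact Finset.sum_congr rfl (fun i _ => Finset.sum_congr rfl (fun j _ => by ring))
      _ = ∑ k ∈ J, x k * ((η : ℂ) * (D * (w k : ℂ) * x k ^ (D - 1))) := this
      _ = (η : ℂ) * (D * ∑ k ∈ J, (w k : ℂ) * x k ^ D) := by
          simp only [Finset.mul_sum]
          refine Finset.sum_congr rfl (fun k _ => ?_)
          rw [← hD1 k]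
          ring
  have e2 : (D : ℂ) * P - 2 * (l + 1) * P = ∑ m, copr q x m *
      ((∑ k ∈ J, x k * qgrad (q m) k x) - 2 * qval (q m) x) +
      D * (1 + (η : ℂ) * ∑ k ∈ Jᶜ, (w k : ℂ) * x k ^ D) := by
    have s1 : ∑ m, copr q x m * ((∑ k ∈ J, x k * qgrad (q m) k x) - 2 * qval (q m) x) =
        (η : ℂ) * (D * ∑ k ∈ J, (w k : ℂ) * x k ^ D) - 2 * (l + 1) * P := by
      rw [← e1]
      simp only [mul_sub, Finset.sum_sub_distrib]
      congr 1
      calc ∑ m, copr q x m * (2 * qval (q m) x) = ∑ _m : Fin (l + 1), 2 * P := by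
            refine Finset.sum_congr rfl (fun m _ => ?_)
            rw [hP, ← copr_mul q x m]; ring
        _ = 2 * (l + 1) * P := by
            rw [Finset.sum_const, Finset.card_univ, Fintype.card_fin, nsmul_eq_mul]
            push_cast; ring
    have s2 := Finset.sum_add_sum_compl J (fun k => (w k : ℂ) * x k ^ D)
    rw [s1, h0, ← s2]
    ring
  -- bounds
  have b1 : ∀ m, ‖copr q x m * ((∑ k ∈ J, x k * qgrad (q m) k x) - 2 * qval (q m) x)‖ ≤
      C / K * ‖P‖ := by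
    intro m
    rw [norm_mul]
    have c1 := euler_bound (q m) B ‖x‖ R (hB m) hx1 hR x le_rfl J hJ
    have c2 : ‖P‖ = ‖copr q x m‖ * ‖qval (q m) x‖ := by rw [hP, ← copr_mul q x m, norm_mul]
    have c3 := (hcon m).le
    rw [c2, div_mul_eq_mul_div, le_div_iff₀ (by linarith)]
    calc ‖copr q x m‖ * ‖(∑ k ∈ J, x k * qgrad (q m) k x) - 2 * qval (q m) x‖ * K
        ≤ ‖copr q x m‖ * (C * ‖x‖) * K := by gcongr
      _ = C * (‖copr q x m‖ * (K * ‖x‖)) := by ring
      _ ≤ C * (‖copr q x m‖ * ‖qval (q m) x‖) := by gcongr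
  have b2 : ‖(D : ℂ) * (1 + (η : ℂ) * ∑ k ∈ Jᶜ, (w k : ℂ) * x k ^ D)‖ ≤ D * (1 + H * S) := by
    rw [norm_mul, Complex.norm_natCast]
    refine mul_le_mul_of_nonneg_left ((norm_add_le _ _).trans ?_) (by positivity)
    rw [norm_one, norm_mul, Complex.norm_real, Real.norm_of_nonneg hη0]
    refine add_le_add le_rfl (mul_le_mul hηH ((norm_sum_le _ _).trans ?_) (norm_nonneg _) hH)
    calc ∑ k ∈ Jᶜ, ‖(w k : ℂ) * x k ^ D‖ ≤ ∑ k ∈ Jᶜ, |w k| * R ^ D := by
          refine Finset.sum_le_sum (fun k hk => ?_)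
          rw [norm_mul, norm_pow, Complex.norm_real, Real.norm_eq_abs]
          have := hJ k (Finset.mem_compl.1 hk)
          gcongr
      _ ≤ S := Finset.sum_le_sum_of_subset_of_nonneg (Finset.subset_univ _)
          (fun k _ _ => by positivity)
  have b3 : ‖(D : ℂ) * P - 2 * (l + 1) * P‖ ≥ ‖P‖ := by
    have : (D : ℂ) * P - 2 * (l + 1) * P = ((D - 2 * (l + 1) : ℕ) : ℂ) * P := by
      rw [Nat.cast_sub hD.le]; push_cast; ring
    rw [this, norm_mul, Complex.norm_natCast]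
    have h : (1 : ℝ) ≤ ((D - 2 * (l + 1) : ℕ) : ℝ) := by exact_mod_cast (by omega)
    nlinarith [norm_nonneg P]
  have b4 : ‖P‖ ≤ (l + 1) * (C / K * ‖P‖) + D * (1 + H * S) := by
    refine b3.le.trans ?_
    rw [e2]
    refine (norm_add_le _ _).trans (add_le_add ((norm_sum_le _ _).trans ?_) b2)
    calc ∑ m, ‖copr q x m * ((∑ k ∈ J, x k * qgrad (q m) k x) - 2 * qval (q m) x)‖
        ≤ ∑ _m : Fin (l + 1), C / K * ‖P‖ := Finset.sum_le_sum (fun m _ => b1 m)
      _ = (l + 1) * (C / K * ‖P‖) := by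
          rw [Finset.sum_const, Finset.card_univ, Fintype.card_fin, nsmul_eq_mul]
          push_cast; ring
  have hKpos : 0 < K := by linarith
  have b5 : ‖P‖ * K ≤ (l + 1) * C * ‖P‖ + D * (1 + H * S) * K := by
    have := mul_le_mul_of_nonneg_right b4 hKpos.le
    have e : ((l + 1 : ℝ) * (C / K * ‖P‖) + D * (1 + H * S)) * K =
        (l + 1) * C * ‖P‖ + D * (1 + H * S) * K := by
      field_simp
    linarith
  have b6 : D * (1 + H * S) * K ≤ D * (1 + H * S) * ‖P‖ :=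
    mul_le_mul_of_nonneg_left hPK (by positivity)
  have hPpos : 0 < ‖P‖ := by linarith
  nlinarith

/-- a bounded family converges along an ultrafilter -/
lemma ultra_lim {ι E : Type*} [NormedAddCommGroup E] [ProperSpace E] (U : Ultrafilter ι)
    (u : ι → E) (B : ℝ) (h : ∀ᶠ i in (U : Filter ι), ‖u i‖ ≤ B) :
    ∃ a, Tendsto u U (𝓝 a) := by
  obtain ⟨a, -, ha⟩ := isCompact_iff_ultrafilter_le_nhds.1 (isCompact_closedBall (0 : E) B)
    (U.map u) (by
      rw [le_principal_iff]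
      show ∀ᶠ i in (U : Filter ι), u i ∈ Metric.closedBall (0 : E) B
      filter_upwards [h] with i hi
      simpa using hi)
  exact ⟨a, ha⟩

lemma tendsto_comp2 {ι A B C : Type*} [TopologicalSpace A] [TopologicalSpace B]
    [TopologicalSpace C] (F : Filter ι) (f : A → B → C) (hf : Continuous (fun z : A × B => f z.1 z.2))
    (u : ι → A) (v : ι → B) (a : A) (b : B) (hu : Tendsto u F (𝓝 a)) (hv : Tendsto v F (𝓝 b)) :
    Tendsto (fun i => f (u i) (v i)) F (𝓝 (f a b)) :=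
  (hf.tendsto (a, b)).comp (hu.prodMk_nhds hv)

lemma tendsto_comp1 {ι A C : Type*} [TopologicalSpace A] [TopologicalSpace C] (F : Filter ι)
    (f : A → C) (hf : Continuous f) (u : ι → A) (a : A) (hu : Tendsto u F (𝓝 a)) :
    Tendsto (fun i => f (u i)) F (𝓝 (f a)) :=
  (hf.tendsto a).comp hu

/-- The compactness core of 3.1. -/
theorem tame_core {ι : Type*} (U : Ultrafilter ι) {N l : ℕ} (D : ℕ) (hD : 2 * (l + 1) < D)
    (w : Fin N → ℝ) (hw : ∀ k, 0 < w k) (q : ι → Fin (l + 1) → QPc N)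
    (q0 : Fin (l + 1) → QPc N) (hq : Tendsto q U (𝓝 q0)) (η : ι → ℝ) (H : ℝ)
    (hη0 : ∀ i, 0 ≤ η i) (hη : ∀ i, η i ≤ H) (x : ι → Fin N → ℂ) (J : Finset (Fin N)) (R : ℝ)
    (hJ : ∀ i, ∀ k, k ∉ J → ‖x i k‖ ≤ R) (hinf : Tendsto (fun i => ‖x i‖) U atTop)
    (h0 : ∀ i, ∏ m, qval (q i m) (x i) = 1 + (η i : ℂ) * ∑ k, (w k : ℂ) * x i k ^ D)
    (h1 : ∀ i, ∀ k ∈ J, ∑ m, copr (q i) (x i) m * qgrad (q i m) k (x i) =
      (η i : ℂ) * (D * (w k : ℂ) * x i k ^ (D - 1))) :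
    ∃ ξ : Fin N → ℂ, ξ ≠ 0 ∧ (∀ k, k ∉ J → ξ k = 0) ∧ ∃ b : Fin (l + 1) → ℂ, b ≠ 0 ∧ ∃ κ : ℂ,
      (∀ m, b m * qform (q0 m) ξ = 0) ∧
      ∀ k ∈ J, ∑ m, b m * qfgrad (q0 m) k ξ = κ * (D * (w k : ℂ) * ξ k ^ (D - 1)) := by
  classical
  -- make `R`, `H` nonnegative
  wlog hR : 0 ≤ R generalizing R with Hr
  · exact Hr (max R 0) (fun i k hk => (hJ i k hk).trans (le_max_left _ _)) (le_max_right _ _)
  wlog hH : 0 ≤ H generalizing H with Hh
  · exact Hh (max H 0) (fun i => (hη i).trans (le_max_left _ _)) (le_max_right _ _)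
  have hr1 : ∀ᶠ i in (U : Filter ι), 1 ≤ ‖x i‖ := hinf.eventually_ge_atTop 1
  -- bound for the coefficients
  obtain ⟨B, hB⟩ : ∃ B : ℝ, ∀ᶠ i in (U : Filter ι), ∀ m, ‖q i m‖ ≤ B := by
    refine ⟨‖q0‖ + 1, ?_⟩
    have := (continuous_norm.tendsto q0).comp hq
    filter_upwards [this.eventually (eventually_lt_nhds (lt_add_one ‖q0‖))] with i hi m
    exact (norm_le_pi_norm (q i) m).trans hi.le
  -- the directions
  obtain ⟨ξ, hξ⟩ := ultra_lim U (fun i => ((‖x i‖ : ℂ)⁻¹) • x i) 1 (by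
    filter_upwards [hr1] with i hi
    rw [norm_smul, norm_inv, Complex.norm_real, Real.norm_of_nonneg (norm_nonneg _),
      inv_mul_cancel₀ (by linarith)])
  have hξ1 : ‖ξ‖ = 1 := by
    refine tendsto_nhds_unique ((continuous_norm.tendsto ξ).comp hξ) ?_
    refine tendsto_const_nhds.congr' ?_
    filter_upwards [hr1] with i hi
    simp only [Function.comp]
    rw [norm_smul, norm_inv, Complex.norm_real, Real.norm_of_nonneg (norm_nonneg _),
      inv_mul_cancel₀ (by linarith)]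
  have hξ0 : ξ ≠ 0 := by
    intro h
    rw [h, norm_zero] at hξ1
    exact zero_ne_one hξ1
  have hξk : ∀ k, Tendsto (fun i => ((‖x i‖ : ℂ)⁻¹) * x i k) U (𝓝 (ξ k)) := fun k =>
    ((continuous_apply k).tendsto ξ).comp hξ
  have hinv : Tendsto (fun i => ((‖x i‖ : ℂ)⁻¹)) U (𝓝 0) := by
    have : Tendsto (fun i => (‖x i‖)⁻¹) U (𝓝 0) := tendsto_inv_atTop_zero.comp hinf
    have h2 := (Complex.continuous_ofReal.tendsto 0).comp this
    simpa [Function.comp_def] using h2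
  have hξJ : ∀ k, k ∉ J → ξ k = 0 := by
    intro k hk
    refine tendsto_nhds_unique (hξk k) ?_
    rw [tendsto_zero_iff_norm_tendsto_zero]
    have h2 : Tendsto (fun i => (‖x i‖)⁻¹ * R) U (𝓝 0) := by
      have : Tendsto (fun i => (‖x i‖)⁻¹) U (𝓝 0) := tendsto_inv_atTop_zero.comp hinf
      simpa using this.mul_const R
    refine squeeze_zero (fun i => norm_nonneg _) (fun i => ?_) h2
    rw [norm_mul, norm_inv, Complex.norm_real, Real.norm_of_nonneg (norm_nonneg _)]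
    exact mul_le_mul_of_nonneg_left (hJ i k hk) (by positivity)
  have hqm : ∀ m, Tendsto (fun i => q i m) U (𝓝 (q0 m)) := fun m =>
    ((continuous_apply m).tendsto q0).comp hq
  -- limits of values and gradients
  have hval : ∀ m, Tendsto (fun i => ((‖x i‖ : ℂ)⁻¹) ^ 2 * qval (q i m) (x i)) U
      (𝓝 (qform (q0 m) ξ)) := by
    intro m
    have t1 : Tendsto (fun i => qform (q i m) (((‖x i‖ : ℂ)⁻¹) • x i)) U
        (𝓝 (qform (q0 m) ξ)) :=
      tendsto_comp2 (U : Filter ι) qform continuous_qform (fun i => q i m) _ (q0 m) ξ (hqm m) hξ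
    have t2 : Tendsto (fun i => ∑ j, (q i m).2.1 j * (((‖x i‖ : ℂ)⁻¹) • x i) j) U
        (𝓝 (∑ j, (q0 m).2.1 j * ξ j)) := by
      have c : Continuous (fun z : QPc N × (Fin N → ℂ) => ∑ j, z.1.2.1 j * z.2 j) := by fun_prop
      exact tendsto_comp2 (U : Filter ι) (fun (p : QPc N) (y : Fin N → ℂ) => ∑ j, p.2.1 j * y j) c
        (fun i => q i m) _ (q0 m) ξ (hqm m) hξ
    have t3 : Tendsto (fun i => (q i m).2.2) U (𝓝 (q0 m).2.2) :=
      tendsto_comp1 (U : Filter ι) (fun p : QPc N => p.2.2) (by fun_prop) (fun i => q i m) (q0 m)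
        (hqm m)
    have t4 := (t1.add (hinv.mul t2)).add ((hinv.pow 2).mul t3)
    have e : (fun i => ((‖x i‖ : ℂ)⁻¹) ^ 2 * qval (q i m) (x i)) = fun i =>
        qform (q i m) (((‖x i‖ : ℂ)⁻¹) • x i) + ((‖x i‖ : ℂ)⁻¹) *
          (∑ j, (q i m).2.1 j * (((‖x i‖ : ℂ)⁻¹) • x i) j) + ((‖x i‖ : ℂ)⁻¹) ^ 2 * (q i m).2.2 := by
      funext i
      exact qval_scale _ _ _
    rw [e]
    simpa using t4
  have hgrad : ∀ m k, Tendsto (fun i => ((‖x i‖ : ℂ)⁻¹) * qgrad (q i m) k (x i)) U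
      (𝓝 (qfgrad (q0 m) k ξ)) := by
    intro m k
    have t1 : Tendsto (fun i => qfgrad (q i m) k (((‖x i‖ : ℂ)⁻¹) • x i)) U
        (𝓝 (qfgrad (q0 m) k ξ)) :=
      tendsto_comp2 (U : Filter ι) (fun p y => qfgrad p k y) (continuous_qfgrad k)
        (fun i => q i m) _ (q0 m) ξ (hqm m) hξ
    have t3 : Tendsto (fun i => (q i m).2.1 k) U (𝓝 ((q0 m).2.1 k)) :=
      tendsto_comp1 (U : Filter ι) (fun p : QPc N => p.2.1 k) (by fun_prop) (fun i => q i m) (q0 m)
        (hqm m)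
    have t4 := t1.add (hinv.mul t3)
    have e : (fun i => ((‖x i‖ : ℂ)⁻¹) * qgrad (q i m) k (x i)) = fun i =>
        qfgrad (q i m) k (((‖x i‖ : ℂ)⁻¹) • x i) + ((‖x i‖ : ℂ)⁻¹) * (q i m).2.1 k := by
      funext i
      exact qgrad_scale _ _ _ _
    rw [e]
    simpa using t4
  -- case 1 is impossible
  set K : ℝ := 2 * ((l + 1) * (N * B + 2 * B + N * R * ((2 * N + 1) * B)) +
      D * (1 + H * ∑ k, |w k| * R ^ D)) + 1 with hK
  have hsmall : ∃ m0, ∀ᶠ i in (U : Filter ι), ‖qval (q i m0) (x i)‖ ≤ K * ‖x i‖ := by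
    by_contra hcon
    push Not at hcon
    have h2 : ∀ m, ∀ᶠ i in (U : Filter ι), ¬ ‖qval (q i m) (x i)‖ ≤ K * ‖x i‖ := fun m =>
      Ultrafilter.eventually_not.2 (by simpa using hcon m)
    have h3 : ∀ᶠ i in (U : Filter ι), ∀ m, ¬ ‖qval (q i m) (x i)‖ ≤ K * ‖x i‖ :=
      eventually_all.2 h2
    obtain ⟨i, hi3, hi1, hiB⟩ := (h3.and (hr1.and hB)).exists
    obtain ⟨m, hm⟩ := case_one D hD w (q i) (x i) J B R H hR hH hiB hi1 (hJ i) (η i) (hη0 i)
      (hη i) (h0 i) (h1 i) K le_rfl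
    exact hi3 m hm
  obtain ⟨m0, hm0⟩ := hsmall
  have hK0 : 0 ≤ K := by
    obtain ⟨i, hi1, hi2⟩ := (hm0.and hr1).exists
    nlinarith [norm_nonneg (qval (q i m0) (x i))]
  -- `M > 0`
  have hM : ∀ᶠ i in (U : Filter ι), 0 < ‖copr (q i) (x i)‖ := by
    have hbig : ∀ᶠ i in (U : Filter ι), R + 1 ≤ ‖x i‖ := hinf.eventually_ge_atTop _
    filter_upwards [hbig] with i hi
    rw [norm_pos_iff]
    intro hz
    have hz' : ∀ m, copr (q i) (x i) m = 0 := fun m => congrFun hz m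
    have hP : ∏ m, qval (q i m) (x i) = 0 := by rw [← copr_mul (q i) (x i) 0, hz' 0, zero_mul]
    have hηne : (η i : ℂ) ≠ 0 := by
      intro h
      have := h0 i
      rw [hP, h, zero_mul, add_zero] at this
      exact zero_ne_one this
    have hzero : ∀ k ∈ J, x i k = 0 := by
      intro k hk
      have := h1 i k hk
      simp only [hz', zero_mul, Finset.sum_const_zero] at this
      have h3 := (mul_eq_zero.1 this.symm).resolve_left hηne
      have h4 := (mul_eq_zero.1 h3).resolve_left (by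
        have hwk : (w k : ℂ) ≠ 0 := by exact_mod_cast (hw k).ne'
        have hDne : (D : ℂ) ≠ 0 := by exact_mod_cast (by omega : D ≠ 0)
        exact mul_ne_zero hDne hwk)
      exact pow_eq_zero_iff (by omega) |>.1 h4
    have : ‖x i‖ ≤ R := by
      rw [pi_norm_le_iff_of_nonneg hR]
      intro k
      by_cases hk : k ∈ J
      · rw [hzero k hk, norm_zero]; exact hR
      · exact hJ i k hk
    linarith
  -- the coefficients `b`
  obtain ⟨b, hb⟩ := ultra_lim U (fun i => ((‖copr (q i) (x i)‖ : ℂ)⁻¹) • copr (q i) (x i)) 1 (by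
    filter_upwards [hM] with i hi
    rw [norm_smul, norm_inv, Complex.norm_real, Real.norm_of_nonneg (norm_nonneg _),
      inv_mul_cancel₀ hi.ne'])
  have hb1 : ‖b‖ = 1 := by
    refine tendsto_nhds_unique ((continuous_norm.tendsto b).comp hb) ?_
    refine tendsto_const_nhds.congr' ?_
    filter_upwards [hM] with i hi
    simp only [Function.comp]
    rw [norm_smul, norm_inv, Complex.norm_real, Real.norm_of_nonneg (norm_nonneg _),
      inv_mul_cancel₀ hi.ne']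
  have hb0 : b ≠ 0 := by
    intro h
    rw [h, norm_zero] at hb1
    exact zero_ne_one hb1
  have hbm : ∀ m, Tendsto (fun i => ((‖copr (q i) (x i)‖ : ℂ)⁻¹) * copr (q i) (x i) m) U
      (𝓝 (b m)) := fun m => ((continuous_apply m).tendsto b).comp hb
  have hbQ : ∀ m, b m * qform (q0 m) ξ = 0 := by
    intro m
    by_cases hbm0 : b m = 0
    · rw [hbm0, zero_mul]
    · have hc : 0 < ‖b m‖ / 2 := by positivity
      have h3 : ∀ᶠ i in (U : Filter ι),
          ‖b m‖ / 2 < ‖((‖copr (q i) (x i)‖ : ℂ)⁻¹) * copr (q i) (x i) m‖ := by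
        have := (continuous_norm.tendsto (b m)).comp (hbm m)
        exact this.eventually (eventually_gt_nhds (by linarith))
      have h4 : ∀ᶠ i in (U : Filter ι), ‖((‖x i‖ : ℂ)⁻¹) ^ 2 * qval (q i m) (x i)‖ ≤
          (K / (‖b m‖ / 2)) * (‖x i‖)⁻¹ := by
        filter_upwards [h3, hM, hm0, hr1] with i hi hiM him0 hi1
        rw [norm_mul, norm_inv, Complex.norm_real, Real.norm_of_nonneg (norm_nonneg _),
          lt_inv_mul_iff₀ hiM] at hi
        have e1 : ‖copr (q i) (x i) m‖ * ‖qval (q i m) (x i)‖ =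
            ‖copr (q i) (x i) m0‖ * ‖qval (q i m0) (x i)‖ := by
          rw [← norm_mul, ← norm_mul, copr_mul, copr_mul]
        have e2 : ‖copr (q i) (x i) m0‖ ≤ ‖copr (q i) (x i)‖ := norm_le_pi_norm _ m0
        have hrpos : 0 < ‖x i‖ := by linarith
        have e3 : (‖b m‖ / 2) * ‖qval (q i m) (x i)‖ ≤ K * ‖x i‖ := by
          have s1 : ‖copr (q i) (x i)‖ * ((‖b m‖ / 2) * ‖qval (q i m) (x i)‖) ≤
              ‖copr (q i) (x i)‖ * (K * ‖x i‖) := by
            calc ‖copr (q i) (x i)‖ * ((‖b m‖ / 2) * ‖qval (q i m) (x i)‖)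
                = (‖copr (q i) (x i)‖ * (‖b m‖ / 2)) * ‖qval (q i m) (x i)‖ := by ring
              _ ≤ ‖copr (q i) (x i) m‖ * ‖qval (q i m) (x i)‖ := by gcongr
              _ = ‖copr (q i) (x i) m0‖ * ‖qval (q i m0) (x i)‖ := e1
              _ ≤ ‖copr (q i) (x i)‖ * (K * ‖x i‖) := by gcongr
          exact le_of_mul_le_mul_left s1 hiM
        rw [norm_mul, norm_pow, norm_inv, Complex.norm_real, Real.norm_of_nonneg (norm_nonneg _)]
        rw [div_mul_eq_mul_div, le_div_iff₀ hc]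
        calc (‖x i‖)⁻¹ ^ 2 * ‖qval (q i m) (x i)‖ * (‖b m‖ / 2)
            = (‖x i‖)⁻¹ ^ 2 * ((‖b m‖ / 2) * ‖qval (q i m) (x i)‖) := by ring
          _ ≤ (‖x i‖)⁻¹ ^ 2 * (K * ‖x i‖) := by gcongr
          _ = K * (‖x i‖)⁻¹ := by field_simp
      have h5 : Tendsto (fun i => ((‖x i‖ : ℂ)⁻¹) ^ 2 * qval (q i m) (x i)) U (𝓝 0) := by
        rw [tendsto_zero_iff_norm_tendsto_zero]
        have h6 : Tendsto (fun i => (K / (‖b m‖ / 2)) * (‖x i‖)⁻¹) U (𝓝 0) := by
          have : Tendsto (fun i => (‖x i‖)⁻¹) U (𝓝 0) := tendsto_inv_atTop_zero.comp hinf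
          simpa using this.const_mul (K / (‖b m‖ / 2))
        exact squeeze_zero' (Eventually.of_forall (fun i => norm_nonneg _)) h4 h6
      rw [tendsto_nhds_unique (hval m) h5, mul_zero]
  -- the scalar `κ`
  set κ : ι → ℝ := fun i => η i * ‖x i‖ ^ (D - 2) / ‖copr (q i) (x i)‖ with hκ
  have hκ0 : ∀ i, 0 ≤ κ i := fun i => by
    simp only [hκ]
    have := hη0 i
    positivity
  have heq : ∀ k ∈ J, ∀ᶠ i in (U : Filter ι),
      ∑ m, (((‖copr (q i) (x i)‖ : ℂ)⁻¹) * copr (q i) (x i) m) *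
        (((‖x i‖ : ℂ)⁻¹) * qgrad (q i m) k (x i)) =
      (κ i : ℂ) * (D * (w k : ℂ) * (((‖x i‖ : ℂ)⁻¹) * x i k) ^ (D - 1)) := by
    intro k hk
    filter_upwards [hM, hr1] with i hiM hi1
    have hr0 : (‖x i‖ : ℂ) ≠ 0 := by
      have : 0 < ‖x i‖ := by linarith
      exact_mod_cast this.ne'
    have hM0 : (‖copr (q i) (x i)‖ : ℂ) ≠ 0 := by exact_mod_cast hiM.ne'
    have e1 : ∑ m, (((‖copr (q i) (x i)‖ : ℂ)⁻¹) * copr (q i) (x i) m) *
        (((‖x i‖ : ℂ)⁻¹) * qgrad (q i m) k (x i)) =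
        ((‖copr (q i) (x i)‖ : ℂ)⁻¹) * ((‖x i‖ : ℂ)⁻¹) *
          ∑ m, copr (q i) (x i) m * qgrad (q i m) k (x i) := by
      rw [Finset.mul_sum]
      exact Finset.sum_congr rfl (fun m _ => by ring)
    rw [e1, h1 i k hk]
    simp only [hκ]
    push_cast
    have hD1 : D - 1 = (D - 2) + 1 := by omega
    rw [mul_pow, inv_pow]
    have e2 : (‖x i‖ : ℂ) ^ (D - 1) = (‖x i‖ : ℂ) ^ (D - 2) * ‖x i‖ := by
      rw [hD1, pow_succ]
    rw [e2]
    field_simp
  have hL : ∀ k, Tendsto (fun i => ∑ m, (((‖copr (q i) (x i)‖ : ℂ)⁻¹) * copr (q i) (x i) m) *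
      (((‖x i‖ : ℂ)⁻¹) * qgrad (q i m) k (x i))) U (𝓝 (∑ m, b m * qfgrad (q0 m) k ξ)) := by
    intro k
    exact tendsto_finsetSum _ (fun m _ => (hbm m).mul (hgrad m k))
  by_cases hbd : ∃ B' : ℝ, ∀ᶠ i in (U : Filter ι), κ i ≤ B'
  · obtain ⟨B', hB'⟩ := hbd
    obtain ⟨κ0, hκ0'⟩ := ultra_lim U κ B' (by
      filter_upwards [hB'] with i hi
      rw [Real.norm_of_nonneg (hκ0 i)]
      exact hi)
    refine ⟨ξ, hξ0, hξJ, b, hb0, κ0, hbQ, fun k hk => ?_⟩
    refine tendsto_nhds_unique (hL k) (Tendsto.congr' ((heq k hk).mono (fun i hi => hi.symm)) ?_)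
    have hκc : Tendsto (fun i => (κ i : ℂ)) U (𝓝 (κ0 : ℂ)) :=
      (Complex.continuous_ofReal.tendsto κ0).comp hκ0'
    exact hκc.mul (tendsto_const_nhds.mul ((hξk k).pow (D - 1)))
  · exfalso
    push Not at hbd
    have hκinf : Tendsto κ U atTop := by
      rw [tendsto_atTop]
      intro B'
      have h2 : ∀ᶠ i in (U : Filter ι), ¬ κ i ≤ B' :=
        Ultrafilter.eventually_not.2 (by simpa using hbd B')
      exact h2.mono (fun i hi => (not_le.1 hi).le)
    have hξJ' : ∀ k ∈ J, ξ k = 0 := by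
      intro k hk
      have hκi : Tendsto (fun i => ((κ i : ℂ))⁻¹) U (𝓝 0) := by
        have : Tendsto (fun i => (κ i)⁻¹) U (𝓝 0) := tendsto_inv_atTop_zero.comp hκinf
        have h2 := (Complex.continuous_ofReal.tendsto 0).comp this
        simpa [Function.comp_def] using h2
      have t1 := hκi.mul (hL k)
      rw [zero_mul] at t1
      have t2 : Tendsto (fun i => (D * (w k : ℂ) * (((‖x i‖ : ℂ)⁻¹) * x i k) ^ (D - 1))) U
          (𝓝 (D * (w k : ℂ) * ξ k ^ (D - 1))) :=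
        tendsto_const_nhds.mul ((hξk k).pow (D - 1))
      have t3 : Tendsto (fun i => (D * (w k : ℂ) * (((‖x i‖ : ℂ)⁻¹) * x i k) ^ (D - 1))) U
          (𝓝 0) := by
        refine t1.congr' ?_
        filter_upwards [heq k hk, hκinf.eventually_gt_atTop 0] with i hi hpos
        rw [hi, ← mul_assoc, inv_mul_cancel₀ (by exact_mod_cast hpos.ne'), one_mul]
      have h4 := tendsto_nhds_unique t2 t3
      have hwk : (w k : ℂ) ≠ 0 := by exact_mod_cast (hw k).ne'
      have hDne : (D : ℂ) ≠ 0 := by exact_mod_cast (by omega : D ≠ 0)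
      exact pow_eq_zero_iff (by omega) |>.1
        ((mul_eq_zero.1 h4).resolve_left (mul_ne_zero hDne hwk))
    apply hξ0
    funext k
    by_cases hk : k ∈ J
    · exact hξJ' k hk
    · exact hξJ k hk

end CoreThm

end Pool.Agent.QC
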