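import Pool.Agent.QC.Tame.Reg

set_option autoImplicit false

/-!
# Uniform tameness (3.1): the conditions (T0), (T') are open; bounds near a tuple
-/

namespace Pool.Agent.QC

open Filter Topology Finset MvPolynomial

variable {n l : ℕ}

/-- the equations at infinity, without the last coordinate -/
def Eqs (q : Tup n l) (ξ : Fin (n + 1) → ℂ) (y : (Fin (l + 1) → ℂ) × ℂ) : Prop :=
  (∀ m, y.1 m * qform (q m) ξ = 0) ∧
  ∀ i : Fin n, ∑ m, y.1 m * qfgrad (q m) i.castSucc ξ = y.2 * ξ i.castSucc ^ (DD l - 1)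

/-- the equation at infinity for the last coordinate -/
def EqL (β : ℂ) (q : Tup n l) (ξ : Fin (n + 1) → ℂ) (y : (Fin (l + 1) → ℂ) × ℂ) : Prop :=
  ∑ m, y.1 m * qfgrad (q m) (Fin.last n) ξ = y.2 * (β * ξ (Fin.last n) ^ (DD l - 1))

lemma norm_eqs (q : Tup n l) {ξ : Fin (n + 1) → ℂ} (hξ : ξ ≠ 0)
    {y : (Fin (l + 1) → ℂ) × ℂ} (hy : y ≠ 0) :
    ∃ s : ℂ, s ≠ 0 ∧ ‖s • ξ‖ = 1 ∧ ∃ y' : (Fin (l + 1) → ℂ) × ℂ, ‖y'‖ = 1 ∧
      (Eqs q ξ y → Eqs q (s • ξ) y') ∧ ∀ β, EqL β q ξ y → EqL β q (s • ξ) y' := by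
  obtain ⟨c, κ⟩ := y
  have hn : (‖ξ‖ : ℂ) ≠ 0 := by
    simpa using hξ
  set s : ℂ := (‖ξ‖ : ℂ) with hs
  set κ' : ℂ := κ * s ^ (DD l - 2) with hκ'
  have hy1 : ((c, κ') : (Fin (l + 1) → ℂ) × ℂ) ≠ 0 := by
    intro h0
    rw [Prod.mk_eq_zero] at h0
    refine hy (Prod.ext h0.1 ?_)
    rcases mul_eq_zero.1 h0.2 with h5 | h5
    · exact h5
    · exact absurd h5 (pow_ne_zero _ hn)
  have hy' : (‖((c, κ') : (Fin (l + 1) → ℂ) × ℂ)‖ : ℂ) ≠ 0 :=
    Complex.ofReal_ne_zero.2 (norm_ne_zero_iff.2 hy1)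
  set r : ℂ := (‖((c, κ') : (Fin (l + 1) → ℂ) × ℂ)‖ : ℂ) with hr
  have hpow : ∀ z : ℂ, κ * z ^ (DD l - 1) = s * (κ' * (s⁻¹ * z) ^ (DD l - 1)) := by
    intro z
    have e1 : DD l - 1 = (DD l - 2) + 1 := by unfold DD; omega
    rw [hκ', mul_pow, e1, pow_succ s⁻¹, inv_pow]
    field_simp
  refine ⟨s⁻¹, inv_ne_zero hn, ?_, r⁻¹ • (c, κ'), ?_, fun h => ⟨fun m => ?_, fun i => ?_⟩,
    fun β h => ?_⟩
  · rw [norm_smul, norm_inv, hs, Complex.norm_real, norm_norm, inv_mul_cancel₀]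
    simpa using hξ
  · rw [norm_smul, norm_inv, hr, Complex.norm_real, norm_norm, inv_mul_cancel₀]
    exact norm_ne_zero_iff.2 hy1
  · simp only [Prod.smul_mk, Pi.smul_apply, smul_eq_mul]
    rw [qform_smul]
    have h1 := h.1 m
    simp only at h1
    linear_combination r⁻¹ * (s⁻¹) ^ 2 * h1
  · simp only [Prod.smul_mk, Pi.smul_apply, smul_eq_mul, qfgrad_smul]
    have e2 := h.2 i
    simp only at e2
    rw [hpow] at e2
    have e3 : ∑ m, r⁻¹ * c m * (s⁻¹ * qfgrad (q m) i.castSucc ξ) =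
        r⁻¹ * s⁻¹ * ∑ m, c m * qfgrad (q m) i.castSucc ξ := by
      rw [Finset.mul_sum]
      exact Finset.sum_congr rfl fun m _ => by ring
    rw [e3, e2]
    field_simp
  · unfold EqL at h ⊢
    simp only [Prod.smul_mk, Pi.smul_apply, smul_eq_mul, qfgrad_smul]
    simp only at h
    have e4 := hpow (ξ (Fin.last n))
    have e3 : ∑ m, r⁻¹ * c m * (s⁻¹ * qfgrad (q m) (Fin.last n) ξ) =
        r⁻¹ * s⁻¹ * ∑ m, c m * qfgrad (q m) (Fin.last n) ξ := by
      rw [Finset.mul_sum]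
      exact Finset.sum_congr rfl fun m _ => by ring
    have e5 : κ * (β * ξ (Fin.last n) ^ (DD l - 1)) =
        s * (κ' * (β * (s⁻¹ * ξ (Fin.last n)) ^ (DD l - 1))) := by
      linear_combination β * e4
    rw [e3, h, e5]
    field_simp

/-! ### Closedness of the equations -/

/-- points (tuple, direction, multipliers) -/
abbrev EqSp (n l : ℕ) := Tup n l × (Fin (n + 1) → ℂ) × ((Fin (l + 1) → ℂ) × ℂ)

lemma isClosed_Eqs : IsClosed {r : EqSp n l | Eqs r.1 r.2.1 r.2.2} := by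
  have h1 : IsClosed {r : EqSp n l | ∀ m, r.2.2.1 m * qform (r.1 m) r.2.1 = 0} := by
    simp only [Set.ofPred_forall, qform]
    exact isClosed_iInter fun m => isClosed_eq (by fun_prop) continuous_const
  have h2 : IsClosed {r : EqSp n l | ∀ i : Fin n,
      ∑ m, r.2.2.1 m * qfgrad (r.1 m) i.castSucc r.2.1 =
        r.2.2.2 * r.2.1 i.castSucc ^ (DD l - 1)} := by
    simp only [Set.ofPred_forall, qfgrad]
    exact isClosed_iInter fun m => isClosed_eq (by fun_prop) (by fun_prop)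
  exact h1.inter h2

lemma isClosed_EqL (β : ℂ) : IsClosed {r : EqSp n l | EqL β r.1 r.2.1 r.2.2} := by
  unfold EqL
  simp only [qfgrad]
  exact isClosed_eq (by fun_prop) (by fun_prop)

lemma T1_iff (q : Tup n l) : T1 q ↔ ∀ ξ : Fin (n + 1) → ℂ, ‖ξ‖ = 1 → ξ (Fin.last n) = 0 →
    ∀ y : (Fin (l + 1) → ℂ) × ℂ, ‖y‖ = 1 → ¬ Eqs q ξ y := by
  constructor
  · intro h ξ hξ hl y hy he
    have h0 : ξ ≠ 0 := by
      rintro rfl
      simp at hξ
    obtain ⟨h1, h2⟩ := h ξ h0 hl y.1 y.2 he.1 he.2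
    have : y = 0 := Prod.ext h1 h2
    rw [this] at hy
    simp at hy
  · intro h ξ hξ hl c κ h1 h2
    by_contra hne
    have hy : ((c, κ) : (Fin (l + 1) → ℂ) × ℂ) ≠ 0 := by
      intro h0
      exact hne ((Prod.mk_eq_zero).1 h0)
    obtain ⟨s, hs, hs1, y', hy', h3, -⟩ := norm_eqs q hξ hy
    refine h _ hs1 ?_ y' hy' (h3 ⟨h1, h2⟩)
    rw [Pi.smul_apply, hl, smul_zero]

/-- `(T')` is open. -/
theorem T1_open' : IsOpen {q : Tup n l | T1 q} := by
  rw [isOpen_iff_mem_nhds]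
  intro q₀ hq₀
  have hK : IsCompact {r : (Fin (n + 1) → ℂ) × ((Fin (l + 1) → ℂ) × ℂ) |
      (r.1 ∈ Metric.sphere 0 1 ∧ r.2 ∈ Metric.sphere 0 1) ∧ r.1 (Fin.last n) = 0} := by
    refine IsCompact.inter_right ((isCompact_sphere (0 : Fin (n + 1) → ℂ) 1).prod
      (isCompact_sphere (0 : (Fin (l + 1) → ℂ) × ℂ) 1)) ?_
    exact isClosed_eq (by fun_prop) continuous_const
  have h := hK.eventually_forall_of_forall_eventually (x₀ := q₀)
    (P := fun (q : Tup n l) (r : (Fin (n + 1) → ℂ) × ((Fin (l + 1) → ℂ) × ℂ)) =>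
      ¬ Eqs q r.1 r.2) (by
      rintro ⟨ξ, y⟩ ⟨⟨h1, h2⟩, h3⟩
      have h4 : ¬ Eqs q₀ ξ y :=
        (T1_iff q₀).1 hq₀ ξ (by simpa using h1) h3 y (by simpa using h2)
      exact isClosed_Eqs.isOpen_compl.mem_nhds h4)
  filter_upwards [h] with q hq
  exact (T1_iff q).2 fun ξ hξ hl y hy => hq (ξ, y) ⟨⟨by simpa using hξ, by simpa using hy⟩, hl⟩

lemma T0_iff (q : Tup n l) : T0 q ↔ (∀ ξ : Fin (n + 1) → ℂ, ‖ξ‖ = 1 →
    (∃ i : Fin n, ξ i.castSucc ≠ 0) → ∀ y : (Fin (l + 1) → ℂ) × ℂ, ‖y‖ = 1 →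
      ¬ (Eqs q ξ y ∧ EqL 0 q ξ y)) ∧ ∀ m, (q m).1 (Fin.last n) (Fin.last n) ≠ 0 := by
  refine and_congr_left fun _ => ⟨?_, ?_⟩
  · rintro h ξ - hl y hy ⟨he, he'⟩
    obtain ⟨h1, h2⟩ := h ξ hl y.1 y.2 he.1 he.2 (by
      rw [he', zero_mul, mul_zero])
    have : y = 0 := Prod.ext h1 h2
    rw [this] at hy
    simp at hy
  · intro h ξ hl c κ h1 h2 h3
    by_contra hne
    have hy : ((c, κ) : (Fin (l + 1) → ℂ) × ℂ) ≠ 0 := by
      intro h0
      exact hne ((Prod.mk_eq_zero).1 h0)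
    have hξ : ξ ≠ 0 := by
      rintro rfl
      obtain ⟨i, hi⟩ := hl
      exact hi rfl
    obtain ⟨s, hs, hs1, y', hy', h4, h5⟩ := norm_eqs q hξ hy
    refine h _ hs1 ?_ y' hy' ⟨h4 ⟨h1, h2⟩, h5 0 ?_⟩
    · obtain ⟨i, hi⟩ := hl
      exact ⟨i, by simpa using ⟨hs, hi⟩⟩
    · unfold EqL
      rw [zero_mul, mul_zero]
      exact h3

lemma qform_last (p : QPc (n + 1)) (ξ : Fin (n + 1) → ℂ) (hc : ∀ i : Fin n, ξ i.castSucc = 0) :
    qform p ξ = p.1 (Fin.last n) (Fin.last n) * ξ (Fin.last n) * ξ (Fin.last n) := by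
  rw [qform, Fin.sum_univ_castSucc]
  simp [hc, Fin.sum_univ_castSucc]

lemma last_ne_zero {ξ : Fin (n + 1) → ℂ} (hξ : ‖ξ‖ = 1) (hc : ∀ i : Fin n, ξ i.castSucc = 0) :
    ξ (Fin.last n) ≠ 0 := by
  intro h
  have : ξ = 0 := by
    funext k
    refine Fin.lastCases ?_ (fun i => ?_) k
    · exact h
    · exact hc i
  rw [this, norm_zero] at hξ
  exact zero_ne_one hξ

/-- `(T0)` is open. -/
theorem T0_open' : IsOpen {q : Tup n l | T0 q} := by
  rw [isOpen_iff_mem_nhds]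
  intro q₀ hq₀
  have hT := (T0_iff q₀).1 hq₀
  have hK : IsCompact {r : (Fin (n + 1) → ℂ) × ((Fin (l + 1) → ℂ) × ℂ) |
      r.1 ∈ Metric.sphere 0 1 ∧ r.2 ∈ Metric.sphere 0 1} :=
    (isCompact_sphere (0 : Fin (n + 1) → ℂ) 1).prod
      (isCompact_sphere (0 : (Fin (l + 1) → ℂ) × ℂ) 1)
  have h := hK.eventually_forall_of_forall_eventually (x₀ := q₀)
    (P := fun (q : Tup n l) (r : (Fin (n + 1) → ℂ) × ((Fin (l + 1) → ℂ) × ℂ)) =>
      (∃ i : Fin n, r.1 i.castSucc ≠ 0) → ¬ (Eqs q r.1 r.2 ∧ EqL 0 q r.1 r.2)) (by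
      rintro ⟨ξ, y⟩ ⟨h1, h2⟩
      have h1' : ‖ξ‖ = 1 := by simpa using h1
      have h2' : ‖y‖ = 1 := by simpa using h2
      by_cases hc : ∃ i : Fin n, ξ i.castSucc ≠ 0
      · have h4 := hT.1 ξ h1' hc y h2'
        have h5 := (isClosed_Eqs.inter (isClosed_EqL (0 : ℂ))).isOpen_compl.mem_nhds
          (x := ((q₀, ξ, y) : EqSp n l)) h4
        filter_upwards [h5] with r hr _
        exact hr
      · push Not at hc
        have hl := last_ne_zero h1' hc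
        have hf : ∀ m, qform (q₀ m) ξ ≠ 0 := by
          intro m
          rw [qform_last _ _ hc]
          exact mul_ne_zero (mul_ne_zero (hT.2 m) hl) hl
        have ho : ∀ᶠ r : EqSp n l in 𝓝 (q₀, ξ, y), ∀ m, qform (r.1 m) r.2.1 ≠ 0 := by
          refine Filter.eventually_all.2 fun m => ?_
          have hcont : Continuous fun r : EqSp n l => qform (r.1 m) r.2.1 := by
            simp only [qform]
            fun_prop
          exact hcont.continuousAt.eventually_ne (hf m)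
        have hy : ∀ᶠ r : EqSp n l in 𝓝 (q₀, ξ, y), r.2.2 ≠ 0 := by
          have hcont : Continuous fun r : EqSp n l => r.2.2 := by fun_prop
          refine hcont.continuousAt.eventually_ne ?_
          rintro rfl
          simp at h2'
        filter_upwards [ho, hy] with r h3 h4 h5 h6
        have hc0 : r.2.2.1 = 0 := by
          funext m
          rcases mul_eq_zero.1 (h6.1.1 m) with h | h
          · exact h
          · exact absurd h (h3 m)
        have hk0 : r.2.2.2 = 0 := by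
          obtain ⟨i, hi⟩ := h5
          have h7 := h6.1.2 i
          rw [hc0] at h7
          simp only [Pi.zero_apply, zero_mul, Finset.sum_const_zero] at h7
          rcases mul_eq_zero.1 h7.symm with h8 | h8
          · exact h8
          · exact absurd h8 (pow_ne_zero _ hi)
        exact h4 (Prod.ext hc0 hk0))
  have h' : ∀ᶠ q in 𝓝 q₀, ∀ m, (q m).1 (Fin.last n) (Fin.last n) ≠ 0 := by
    refine Filter.eventually_all.2 fun m => ?_
    have hcont : Continuous fun q : Tup n l => (q m).1 (Fin.last n) (Fin.last n) := by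
      fun_prop
    exact hcont.continuousAt.eventually_ne (hT.2 m)
  filter_upwards [h, h'] with q hq hq'
  exact (T0_iff q).2 ⟨fun ξ hξ hl y hy =>
    hq (ξ, y) ⟨by simpa using hξ, by simpa using hy⟩ hl, hq'⟩

end Pool.Agent.QC
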