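import Pool.Agent.QC.Tame.Cond

set_option autoImplicit false

/-!
# Uniform tameness (3.1): boundedness of critical and singular points, uniform regularity
-/

namespace Pool.Agent.QC

open Filter Topology Finset MvPolynomial

variable {n l : ℕ}

lemma DD_gt (l : ℕ) : 2 * (l + 1) < DD l := by
  unfold DD
  omega

/-! ### Continuity -/

lemma continuous_eval_fpol (en : ℝ) :
    Continuous (fun r : ℝ × Tup n l × (Fin (n + 1) → ℂ) =>
      eval r.2.2 (fpol en r.1 r.2.1)) := by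
  simp only [eval_fpol, qval]
  fun_prop

lemma continuous_eval_pderiv_fpol (en : ℝ) (k : Fin (n + 1)) :
    Continuous (fun r : ℝ × Tup n l × (Fin (n + 1) → ℂ) =>
      eval r.2.2 (pderiv k (fpol en r.1 r.2.1))) := by
  simp only [eval_pderiv_fpol, copr, qval, qgrad]
  fun_prop

lemma isClosed_critF (en : ℝ) : IsClosed {r : ℝ × Tup n l × (Fin (n + 1) → ℂ) |
    r.2.2 ∈ CritF (fpol en r.1 r.2.1)} := by
  have h1 : IsClosed {r : ℝ × Tup n l × (Fin (n + 1) → ℂ) |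
      eval r.2.2 (fpol en r.1 r.2.1) = 0} :=
    isClosed_eq (continuous_eval_fpol en) continuous_const
  have h2 : IsClosed {r : ℝ × Tup n l × (Fin (n + 1) → ℂ) |
      ∀ i : Fin n, eval r.2.2 (pderiv i.castSucc (fpol en r.1 r.2.1)) = 0} := by
    simp only [Set.ofPred_forall]
    exact isClosed_iInter fun i =>
      isClosed_eq (continuous_eval_pderiv_fpol en _) continuous_const
  exact h1.inter h2

lemma isClosed_singF (en : ℝ) : IsClosed {r : ℝ × Tup n l × (Fin (n + 1) → ℂ) |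
    r.2.2 ∈ SingF (fpol en r.1 r.2.1)} := by
  have h1 : IsClosed {r : ℝ × Tup n l × (Fin (n + 1) → ℂ) |
      eval r.2.2 (fpol en r.1 r.2.1) = 0} :=
    isClosed_eq (continuous_eval_fpol en) continuous_const
  have h2 : IsClosed {r : ℝ × Tup n l × (Fin (n + 1) → ℂ) |
      ∀ i, eval r.2.2 (pderiv i (fpol en r.1 r.2.1)) = 0} := by
    simp only [Set.ofPred_forall]
    exact isClosed_iInter fun i =>
      isClosed_eq (continuous_eval_pderiv_fpol en _) continuous_const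
  exact h1.inter h2

/-! ### Boundedness -/

/-- Critical points over a compact set of tuples, with bounded last coordinate, are bounded. -/
theorem crit_bounded {K : Set (Tup n l)} (hK : IsCompact K) (hT : ∀ q ∈ K, T1 q) {en : ℝ}
    (hen : 0 < en) (R H : ℝ) :
    ∃ C : ℝ, ∀ q ∈ K, ∀ eta : ℝ, 0 ≤ eta → eta ≤ H → ∀ x ∈ CritF (fpol en eta q),
      ‖x (Fin.last n)‖ ≤ R → ‖x‖ ≤ C := by
  by_contra hcon
  push Not at hcon
  choose q hqK eta h0 hH x hx hxR hxC using fun j : ℕ => hcon (j : ℝ)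
  obtain ⟨q0, hq0K, hq0⟩ := isCompact_iff_ultrafilter_le_nhds.1 hK
    ((hyperfilter ℕ).map q) (by
      rw [le_principal_iff]
      show ∀ᶠ j in (hyperfilter ℕ : Filter ℕ), q j ∈ K
      exact Filter.Eventually.of_forall hqK)
  have hU : ((hyperfilter ℕ : Ultrafilter ℕ) : Filter ℕ) ≤ atTop := by
    rw [← Nat.cofinite_eq_atTop]
    exact hyperfilter_le_cofinite
  have hinf : Tendsto (fun j => ‖x j‖) (hyperfilter ℕ : Filter ℕ) atTop :=
    (tendsto_atTop_mono (fun j => (hxC j).le) tendsto_natCast_atTop_atTop).mono_left hU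
  obtain ⟨ξ, hξ, hξJ, b, hb, κ, e1, e2⟩ := tame_core (hyperfilter ℕ) (DD l) (DD_gt l) (wts n en)
    (wts_pos hen) q q0 hq0 eta H h0 hH x (Jc n) R
    (by
      intro j k hk
      rw [mem_Jc, not_not] at hk
      rw [hk]
      exact hxR j)
    hinf (fun j => ((mem_CritF en _ _ _).1 (hx j)).1)
    (fun j k hk => ((mem_CritF en _ _ _).1 (hx j)).2 k hk)
  refine hb (hT q0 hq0K ξ hξ (hξJ _ (by simp [mem_Jc])) b (κ * DD l) e1 (fun i => ?_)).1
  rw [e2 _ (castSucc_mem_Jc i)]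
  simp
  ring

/-- Singular points over a compact set of tuples are bounded. -/
theorem sing_bounded {K : Set (Tup n l)} (hK : IsCompact K) {en : ℝ}
    (hen : 0 < en) (hT : ∀ q ∈ K, TT en q) (H : ℝ) :
    ∃ C : ℝ, ∀ q ∈ K, ∀ eta : ℝ, 0 ≤ eta → eta ≤ H → ∀ x ∈ SingF (fpol en eta q),
      ‖x‖ ≤ C := by
  by_contra hcon
  push Not at hcon
  choose q hqK eta h0 hH x hx hxC using fun j : ℕ => hcon (j : ℝ)
  obtain ⟨q0, hq0K, hq0⟩ := isCompact_iff_ultrafilter_le_nhds.1 hK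
    ((hyperfilter ℕ).map q) (by
      rw [le_principal_iff]
      show ∀ᶠ j in (hyperfilter ℕ : Filter ℕ), q j ∈ K
      exact Filter.Eventually.of_forall hqK)
  have hU : ((hyperfilter ℕ : Ultrafilter ℕ) : Filter ℕ) ≤ atTop := by
    rw [← Nat.cofinite_eq_atTop]
    exact hyperfilter_le_cofinite
  have hinf : Tendsto (fun j => ‖x j‖) (hyperfilter ℕ : Filter ℕ) atTop :=
    (tendsto_atTop_mono (fun j => (hxC j).le) tendsto_natCast_atTop_atTop).mono_left hU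
  obtain ⟨ξ, hξ, -, b, hb, κ, e1, e2⟩ := tame_core (hyperfilter ℕ) (DD l) (DD_gt l) (wts n en)
    (wts_pos hen) q q0 hq0 eta H h0 hH x univ 0
    (by
      intro j k hk
      exact absurd (Finset.mem_univ k) hk)
    hinf (fun j => ((mem_SingF en _ _ _).1 (hx j)).1)
    (fun j k hk => ((mem_SingF en _ _ _).1 (hx j)).2 k hk)
  refine hb (hT q0 hq0K ξ hξ b (κ * DD l) e1 (fun i => ?_) ?_).1
  · rw [e2 _ (Finset.mem_univ _)]
    simp
    ring
  · rw [e2 _ (Finset.mem_univ _)]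
    simp
    ring

/-! ### Compactness -/

/-- The critical points over a compact set, with bounded last coordinate, form a compact set. -/
theorem crit_compact {K : Set (Tup n l)} (hK : IsCompact K) (hT : ∀ q ∈ K, T1 q) {en : ℝ}
    (hen : 0 < en) (R H : ℝ) :
    IsCompact {r : ℝ × Tup n l × (Fin (n + 1) → ℂ) | r.1 ∈ Set.Icc 0 H ∧ r.2.1 ∈ K ∧
      r.2.2 ∈ CritF (fpol en r.1 r.2.1) ∧ ‖r.2.2 (Fin.last n)‖ ≤ R} := by
  obtain ⟨C, hC⟩ := crit_bounded hK hT hen R H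
  refine IsCompact.of_isClosed_subset ((isCompact_Icc (a := (0 : ℝ)) (b := H)).prod
    (hK.prod (isCompact_closedBall (0 : Fin (n + 1) → ℂ) C))) ?_ ?_
  · have h1 : IsClosed {r : ℝ × Tup n l × (Fin (n + 1) → ℂ) | r.1 ∈ Set.Icc 0 H} :=
      isClosed_Icc.preimage continuous_fst
    have h2 : IsClosed {r : ℝ × Tup n l × (Fin (n + 1) → ℂ) | r.2.1 ∈ K} :=
      hK.isClosed.preimage (continuous_fst.comp continuous_snd)
    have h3 : IsClosed {r : ℝ × Tup n l × (Fin (n + 1) → ℂ) | ‖r.2.2 (Fin.last n)‖ ≤ R} :=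
      isClosed_le (by fun_prop) continuous_const
    exact h1.inter (h2.inter ((isClosed_critF en).inter h3))
  · rintro ⟨eta, q, x⟩ ⟨h1, h2, h3, h4⟩
    exact ⟨h1, h2, by simpa using hC q h2 eta h1.1 h1.2 x h3 h4⟩

/-- The singular points over a compact set form a compact set. -/
theorem sing_compact {K : Set (Tup n l)} (hK : IsCompact K) {en : ℝ}
    (hen : 0 < en) (hT : ∀ q ∈ K, TT en q) (H : ℝ) :
    IsCompact {r : ℝ × Tup n l × (Fin (n + 1) → ℂ) | r.1 ∈ Set.Icc 0 H ∧ r.2.1 ∈ K ∧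
      r.2.2 ∈ SingF (fpol en r.1 r.2.1)} := by
  obtain ⟨C, hC⟩ := sing_bounded hK hen hT H
  refine IsCompact.of_isClosed_subset ((isCompact_Icc (a := (0 : ℝ)) (b := H)).prod
    (hK.prod (isCompact_closedBall (0 : Fin (n + 1) → ℂ) C))) ?_ ?_
  · have h1 : IsClosed {r : ℝ × Tup n l × (Fin (n + 1) → ℂ) | r.1 ∈ Set.Icc 0 H} :=
      isClosed_Icc.preimage continuous_fst
    have h2 : IsClosed {r : ℝ × Tup n l × (Fin (n + 1) → ℂ) | r.2.1 ∈ K} :=
      hK.isClosed.preimage (continuous_fst.comp continuous_snd)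
    exact h1.inter (h2.inter (isClosed_singF en))
  · rintro ⟨eta, q, x⟩ ⟨h1, h2, h3⟩
    exact ⟨h1, h2, by simpa using hC q h2 eta h1.1 h1.2 x h3⟩

/-! ### Uniform regularity -/

/-- a compact subset of the line without `0` misses a neighbourhood of `0` -/
lemma event_of_compact {X : Type*} [TopologicalSpace X] {Z : Set (ℝ × X)} (hZ : IsCompact Z)
    (h0 : ∀ r ∈ Z, r.1 ≠ 0) : ∀ᶠ eta in 𝓝 (0 : ℝ), ∀ x, (eta, x) ∉ Z := by
  have h1 : IsClosed (Prod.fst '' Z) := (hZ.image continuous_fst).isClosed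
  have h2 : (0 : ℝ) ∈ (Prod.fst '' Z)ᶜ := by
    rintro ⟨r, hr, hr0⟩
    exact h0 r hr hr0
  filter_upwards [h1.isOpen_compl.mem_nhds h2] with eta heta x hx
  exact heta ⟨_, hx, rfl⟩

/-- (3.1) for critical values. -/
theorem tame_crit {K : Set (Tup n l × ℂ)} (hK : IsCompact K) (hT : ∀ p ∈ K, T1 p.1)
    (hr : ∀ p ∈ K, p.2 ∉ SigF (f0 p.1)) {en : ℝ} (hen : 0 < en) :
    ∀ᶠ eta in 𝓝[≥] (0 : ℝ), ∀ p ∈ K, p.2 ∉ SigF (fpol en eta p.1) := by
  obtain ⟨R, hR⟩ : ∃ R : ℝ, ∀ p ∈ K, ‖p.2‖ ≤ R := by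
    obtain ⟨R, hR⟩ := (hK.image continuous_snd).isBounded.exists_norm_le
    exact ⟨R, fun p hp => hR _ ⟨p, hp, rfl⟩⟩
  have hc := crit_compact (hK.image continuous_fst) (by
    rintro q ⟨p, hp, rfl⟩
    exact hT p hp) hen R 1
  have hcl : IsClosed {r : ℝ × Tup n l × (Fin (n + 1) → ℂ) |
      (r.2.1, r.2.2 (Fin.last n)) ∈ K} :=
    hK.isClosed.preimage (by fun_prop)
  have hZ := hc.inter_right hcl
  have he := event_of_compact hZ (by
    rintro ⟨eta, q, x⟩ ⟨⟨-, -, h3, -⟩, h5⟩ h0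
    simp only at h0 h3 h5
    rw [h0, fpol_zero] at h3
    exact hr _ h5 ⟨x, h3, rfl⟩)
  have h1 : ∀ᶠ eta in 𝓝[≥] (0 : ℝ), eta ≤ 1 :=
    nhdsWithin_le_nhds (eventually_le_nhds zero_lt_one)
  filter_upwards [nhdsWithin_le_nhds he, h1, self_mem_nhdsWithin] with eta h2 h3 h4 p hp hmem
  obtain ⟨x, hx, hxp⟩ := hmem
  simp only at hxp
  refine h2 (p.1, x) ⟨⟨⟨h4, h3⟩, ⟨p, hp, rfl⟩, hx, ?_⟩, ?_⟩
  · simp only [hxp]
    exact hR p hp
  · simpa only [Set.mem_ofPred_eq, hxp] using hp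

/-- (3.1) for singular points, with condition (T). -/
theorem tame_sing' {K : Set (Tup n l)} (hK : IsCompact K) {en : ℝ} (hen : 0 < en)
    (hT : ∀ q ∈ K, TT en q) (hr : ∀ q ∈ K, SingF (f0 q) = ∅) :
    ∀ᶠ eta in 𝓝[≥] (0 : ℝ), ∀ q ∈ K, SingF (fpol en eta q) = ∅ := by
  have he := event_of_compact (sing_compact hK hen hT 1) (by
    rintro ⟨eta, q, x⟩ ⟨-, h2, h3⟩ h0
    simp only at h0 h2 h3
    rw [h0, fpol_zero, hr q h2] at h3
    exact h3)
  have h1 : ∀ᶠ eta in 𝓝[≥] (0 : ℝ), eta ≤ 1 :=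
    nhdsWithin_le_nhds (eventually_le_nhds zero_lt_one)
  filter_upwards [nhdsWithin_le_nhds he, h1, self_mem_nhdsWithin] with eta h2 h3 h4 q hq
  rw [Set.eq_empty_iff_forall_notMem]
  intro x hx
  exact h2 (q, x) ⟨⟨h4, h3⟩, hq, hx⟩

/-! ### Condition (T) for small `en` -/

lemma qform_smul {N : ℕ} (p : QPc N) (s : ℂ) (x : Fin N → ℂ) :
    qform p (s • x) = s ^ 2 * qform p x := by
  simp only [qform, Finset.mul_sum, Pi.smul_apply, smul_eq_mul]
  refine Finset.sum_congr rfl fun i _ => Finset.sum_congr rfl fun j _ => ?_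
  ring

lemma qfgrad_smul {N : ℕ} (p : QPc N) (k : Fin N) (s : ℂ) (x : Fin N → ℂ) :
    qfgrad p k (s • x) = s * qfgrad p k x := by
  simp only [qfgrad, Finset.mul_sum, Pi.smul_apply, smul_eq_mul]
  refine Finset.sum_congr rfl fun j _ => ?_
  ring

/-- failure of (T) with normalised data -/
lemma not_TT {en : ℝ} {q : Tup n l} (h : ¬ TT en q) :
    ∃ ξ : Fin (n + 1) → ℂ, ‖ξ‖ = 1 ∧ ∃ y : (Fin (l + 1) → ℂ) × ℂ, ‖y‖ = 1 ∧
    (∀ m, y.1 m * qform (q m) ξ = 0) ∧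
    (∀ i : Fin n, ∑ m, y.1 m * qfgrad (q m) i.castSucc ξ =
      y.2 * ξ i.castSucc ^ (DD l - 1)) ∧
    (∑ m, y.1 m * qfgrad (q m) (Fin.last n) ξ =
      y.2 * ((en : ℂ) * ξ (Fin.last n) ^ (DD l - 1))) := by
  unfold TT at h
  push Not at h
  obtain ⟨ξ, hξ, c, κ, h1, h2, h3, h4⟩ := h
  have hn : (‖ξ‖ : ℂ) ≠ 0 := by
    simpa using hξ
  set s : ℂ := (‖ξ‖ : ℂ) with hs
  set κ' : ℂ := κ * s ^ (DD l - 2) with hκ'
  have hy : ((c, κ') : (Fin (l + 1) → ℂ) × ℂ) ≠ 0 := by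
    intro h0
    rw [Prod.mk_eq_zero] at h0
    refine h4 h0.1 ?_
    rcases mul_eq_zero.1 h0.2 with h5 | h5
    · exact h5
    · exact absurd h5 (pow_ne_zero _ hn)
  have hy' : (‖((c, κ') : (Fin (l + 1) → ℂ) × ℂ)‖ : ℂ) ≠ 0 :=
    Complex.ofReal_ne_zero.2 (norm_ne_zero_iff.2 hy)
  set r : ℂ := (‖((c, κ') : (Fin (l + 1) → ℂ) × ℂ)‖ : ℂ) with hr
  have hpow : ∀ z : ℂ, κ * z ^ (DD l - 1) = s * (κ' * (s⁻¹ * z) ^ (DD l - 1)) := by
    intro z
    have e1 : DD l - 1 = (DD l - 2) + 1 := by unfold DD; omega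
    rw [hκ', mul_pow, e1, pow_succ s⁻¹, inv_pow]
    field_simp
  refine ⟨s⁻¹ • ξ, ?_, r⁻¹ • (c, κ'), ?_, fun m => ?_, fun i => ?_, ?_⟩
  · rw [norm_smul, norm_inv, hs, Complex.norm_real, norm_norm, inv_mul_cancel₀]
    simpa using hξ
  · rw [norm_smul, norm_inv, hr, Complex.norm_real, norm_norm, inv_mul_cancel₀]
    exact norm_ne_zero_iff.2 hy
  · simp only [Prod.smul_mk, Pi.smul_apply, smul_eq_mul]
    rw [qform_smul]
    linear_combination r⁻¹ * (s⁻¹) ^ 2 * h1 m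
  · simp only [Prod.smul_mk, Pi.smul_apply, smul_eq_mul, qfgrad_smul]
    have e2 := h2 i
    rw [hpow] at e2
    have e3 : ∑ m, r⁻¹ * c m * (s⁻¹ * qfgrad (q m) i.castSucc ξ) =
        r⁻¹ * s⁻¹ * ∑ m, c m * qfgrad (q m) i.castSucc ξ := by
      rw [Finset.mul_sum]
      exact Finset.sum_congr rfl fun m _ => by ring
    rw [e3, e2]
    field_simp
  · simp only [Prod.smul_mk, Pi.smul_apply, smul_eq_mul, qfgrad_smul]
    have e2 := h3
    have e4 := hpow (ξ (Fin.last n))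
    have e3 : ∑ m, r⁻¹ * c m * (s⁻¹ * qfgrad (q m) (Fin.last n) ξ) =
        r⁻¹ * s⁻¹ * ∑ m, c m * qfgrad (q m) (Fin.last n) ξ := by
      rw [Finset.mul_sum]
      exact Finset.sum_congr rfl fun m _ => by ring
    have e5 : κ * ((en : ℂ) * ξ (Fin.last n) ^ (DD l - 1)) =
        s * (κ' * ((en : ℂ) * (s⁻¹ * ξ (Fin.last n)) ^ (DD l - 1))) := by
      linear_combination (en : ℂ) * e4
    rw [e3, e2, e5]
    field_simp

/-- (3.1): condition (T) for small `en`, uniformly on compact sets. -/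
theorem TT_of_T0 {K : Set (Tup n l)} (hK : IsCompact K) (hT : ∀ q ∈ K, T0 q) :
    ∀ᶠ en in 𝓝[>] (0 : ℝ), ∀ q ∈ K, TT en q := by
  by_contra hcon
  rw [Filter.not_eventually] at hcon
  have hne : NeBot (𝓝[>] (0 : ℝ) ⊓ 𝓟 {en | ¬ ∀ q ∈ K, TT en q}) :=
    Filter.frequently_mem_iff_neBot.1 hcon
  set U : Ultrafilter ℝ := Ultrafilter.of (𝓝[>] (0 : ℝ) ⊓ 𝓟 {en | ¬ ∀ q ∈ K, TT en q})
    with hU
  have hUle := Ultrafilter.of_le (𝓝[>] (0 : ℝ) ⊓ 𝓟 {en | ¬ ∀ q ∈ K, TT en q})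
  have hU1 : (U : Filter ℝ) ≤ 𝓝[>] (0 : ℝ) := hUle.trans inf_le_left
  have hU2 : ∀ᶠ en in (U : Filter ℝ), ¬ ∀ q ∈ K, TT en q :=
    (hUle.trans inf_le_right) (mem_principal_self _)
  have hch : ∀ en : ℝ, (¬ ∀ q ∈ K, TT en q) → ∃ q : Tup n l, q ∈ K ∧ ∃ ξ : Fin (n + 1) → ℂ,
      ‖ξ‖ = 1 ∧ ∃ y : (Fin (l + 1) → ℂ) × ℂ, ‖y‖ = 1 ∧
      (∀ m, y.1 m * qform (q m) ξ = 0) ∧
      (∀ i : Fin n, ∑ m, y.1 m * qfgrad (q m) i.castSucc ξ =
        y.2 * ξ i.castSucc ^ (DD l - 1)) ∧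
      (∑ m, y.1 m * qfgrad (q m) (Fin.last n) ξ =
        y.2 * ((en : ℂ) * ξ (Fin.last n) ^ (DD l - 1))) := by
    intro en h
    push Not at h
    obtain ⟨q, hq, h⟩ := h
    exact ⟨q, hq, not_TT h⟩
  choose! q hqK ξ hξ y hy h1 h2 h3 using hch
  have hen : Tendsto (fun en : ℝ => (en : ℂ)) U (𝓝 0) := by
    have : Tendsto (fun en : ℝ => (en : ℂ)) (𝓝 0) (𝓝 ((0 : ℝ) : ℂ)) :=
      (Complex.continuous_ofReal.tendsto 0)
    simpa using this.mono_left (hU1.trans nhdsWithin_le_nhds)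
  obtain ⟨q0, hq0K, hq0⟩ := isCompact_iff_ultrafilter_le_nhds.1 hK (U.map q) (by
    rw [le_principal_iff]
    show ∀ᶠ j in (U : Filter ℝ), q j ∈ K
    exact hU2.mono hqK)
  obtain ⟨ξ0, hξ0⟩ := ultra_lim U ξ 1 (hU2.mono fun en h => (hξ en h).le)
  obtain ⟨y0, hy0⟩ := ultra_lim U y 1 (hU2.mono fun en h => (hy en h).le)
  have hξ01 : ‖ξ0‖ = 1 := by
    have e1 : Tendsto (fun en => ‖ξ en‖) U (𝓝 ‖ξ0‖) := (continuous_norm.tendsto ξ0).comp hξ0
    have e2 : Tendsto (fun en => ‖ξ en‖) U (𝓝 1) := by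
      refine tendsto_const_nhds.congr' ?_
      filter_upwards [hU2] with en h
      exact (hξ en h).symm
    exact tendsto_nhds_unique e1 e2
  have hy01 : ‖y0‖ = 1 := by
    have e1 : Tendsto (fun en => ‖y en‖) U (𝓝 ‖y0‖) := (continuous_norm.tendsto y0).comp hy0
    have e2 : Tendsto (fun en => ‖y en‖) U (𝓝 1) := by
      refine tendsto_const_nhds.congr' ?_
      filter_upwards [hU2] with en h
      exact (hy en h).symm
    exact tendsto_nhds_unique e1 e2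
  -- the limit data
  have hqm : ∀ m, Tendsto (fun en => q en m) U (𝓝 (q0 m)) :=
    fun m => ((continuous_apply m).tendsto q0).comp hq0
  have hf : ∀ m, Tendsto (fun en => qform (q en m) (ξ en)) U (𝓝 (qform (q0 m) ξ0)) :=
    fun m => tendsto_comp2 _ qform continuous_qform _ _ _ _ (hqm m) hξ0
  have hg : ∀ m k, Tendsto (fun en => qfgrad (q en m) k (ξ en)) U
      (𝓝 (qfgrad (q0 m) k ξ0)) :=
    fun m k => tendsto_comp2 _ (fun p x => qfgrad p k x) (continuous_qfgrad k) _ _ _ _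
      (hqm m) hξ0
  have hyc : ∀ m, Tendsto (fun en => (y en).1 m) U (𝓝 (y0.1 m)) :=
    fun m => tendsto_comp1 _ (fun y : (Fin (l + 1) → ℂ) × ℂ => y.1 m) (by fun_prop) _ _ hy0
  have hyk : Tendsto (fun en => (y en).2) U (𝓝 y0.2) :=
    tendsto_comp1 _ (fun y : (Fin (l + 1) → ℂ) × ℂ => y.2) (by fun_prop) _ _ hy0
  have hξc : ∀ k, Tendsto (fun en => ξ en k) U (𝓝 (ξ0 k)) :=
    fun k => ((continuous_apply k).tendsto ξ0).comp hξ0
  have l1 : ∀ m, y0.1 m * qform (q0 m) ξ0 = 0 := by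
    intro m
    refine tendsto_nhds_unique ((hyc m).mul (hf m)) (tendsto_const_nhds.congr' ?_)
    filter_upwards [hU2] with en h
    exact (h1 en h m).symm
  have l2 : ∀ i : Fin n, ∑ m, y0.1 m * qfgrad (q0 m) i.castSucc ξ0 =
      y0.2 * ξ0 i.castSucc ^ (DD l - 1) := by
    intro i
    refine tendsto_nhds_unique (tendsto_finsetSum _ fun m _ => (hyc m).mul (hg m _))
      ((hyk.mul ((hξc _).pow _)).congr' ?_)
    filter_upwards [hU2] with en h
    exact (h2 en h i).symm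
  have l3 : ∑ m, y0.1 m * qfgrad (q0 m) (Fin.last n) ξ0 = 0 := by
    have e1 := tendsto_finsetSum (Finset.univ : Finset (Fin (l + 1)))
      fun m _ => (hyc m).mul (hg m (Fin.last n))
    have e2 := hyk.mul (hen.mul ((hξc (Fin.last n)).pow (DD l - 1)))
    rw [zero_mul, mul_zero] at e2
    refine tendsto_nhds_unique e1 (e2.congr' ?_)
    filter_upwards [hU2] with en h
    exact (h3 en h).symm
  obtain ⟨hT0, hTn⟩ := hT q0 hq0K
  have hy0ne : y0 ≠ 0 := by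
    intro h
    rw [h, norm_zero] at hy01
    exact zero_ne_one hy01
  by_cases hc : ∃ i : Fin n, ξ0 i.castSucc ≠ 0
  · obtain ⟨a1, a2⟩ := hT0 ξ0 hc y0.1 y0.2 l1 l2 l3
    exact hy0ne (Prod.ext a1 a2)
  · push Not at hc
    have hlast : ξ0 (Fin.last n) ≠ 0 := by
      intro h
      have : ξ0 = 0 := by
        funext k
        refine Fin.lastCases ?_ (fun i => ?_) k
        · exact h
        · exact hc i
      rw [this, norm_zero] at hξ01
      exact zero_ne_one hξ01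
    have hq0f : ∀ m, qform (q0 m) ξ0 ≠ 0 := by
      intro m
      have e1 : qform (q0 m) ξ0 =
          (q0 m).1 (Fin.last n) (Fin.last n) * ξ0 (Fin.last n) * ξ0 (Fin.last n) := by
        rw [qform, Fin.sum_univ_castSucc]
        simp [hc, Fin.sum_univ_castSucc]
      rw [e1]
      exact mul_ne_zero (mul_ne_zero (hTn m) hlast) hlast
    have h4 : ∀ᶠ en in (U : Filter ℝ), ∀ m, qform (q en m) (ξ en) ≠ 0 :=
      Filter.eventually_all.2 fun m => (hf m).eventually_ne (hq0f m)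
    have h5 : ∀ᶠ en in (U : Filter ℝ), 0 < en := hU1 self_mem_nhdsWithin
    obtain ⟨en, hen0, hqf, hbad⟩ := (h5.and (h4.and hU2)).exists
    have hc0 : (y en).1 = 0 := by
      funext m
      rcases mul_eq_zero.1 (h1 en hbad m) with h | h
      · exact h
      · exact absurd h (hqf m)
    have hk0 : (y en).2 ≠ 0 := by
      intro h
      have : y en = 0 := Prod.ext hc0 h
      have h6 := hy en hbad
      rw [this, norm_zero] at h6
      exact zero_ne_one h6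
    have hD1 : DD l - 1 ≠ 0 := by
      unfold DD
      omega
    have hξ00 : ξ en = 0 := by
      funext k
      refine Fin.lastCases ?_ (fun i => ?_) k
      · have h7 := h3 en hbad
        rw [hc0] at h7
        simp only [Pi.zero_apply, zero_mul, Finset.sum_const_zero] at h7
        rcases mul_eq_zero.1 h7.symm with h8 | h8
        · exact absurd h8 hk0
        · rcases mul_eq_zero.1 h8 with h9 | h9
          · exact absurd (by exact_mod_cast h9) hen0.ne'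
          · exact pow_eq_zero_iff hD1 |>.1 h9
      · have h7 := h2 en hbad i
        rw [hc0] at h7
        simp only [Pi.zero_apply, zero_mul, Finset.sum_const_zero] at h7
        rcases mul_eq_zero.1 h7.symm with h8 | h8
        · exact absurd h8 hk0
        · exact pow_eq_zero_iff hD1 |>.1 h8
    have h6 := hξ en hbad
    rw [hξ00, norm_zero] at h6
    exact zero_ne_one h6

/-- (3.1) for singular points. -/
theorem tame_sing_ge {K : Set (Tup n l)} (hK : IsCompact K) (hT : ∀ q ∈ K, T0 q)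
    (hr : ∀ q ∈ K, SingF (f0 q) = ∅) :
    ∀ᶠ en in 𝓝[>] (0 : ℝ), ∀ᶠ eta in 𝓝[≥] (0 : ℝ), ∀ q ∈ K,
      SingF (fpol en eta q) = ∅ := by
  filter_upwards [TT_of_T0 hK hT, self_mem_nhdsWithin] with en h1 h2
  exact tame_sing' hK h2 h1 hr

end Pool.Agent.QC
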