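import Pool.Agent.QC.Tame.Open

set_option autoImplicit false

/-!
# Uniform tameness (3.1): semicontinuity of the critical set; bounds at `eta = 0`; frames
-/

namespace Pool.Agent.QC

open Filter Topology Finset MvPolynomial

variable {n l : ℕ}

/-- a compact neighbourhood inside an open set of tuples -/
lemma exists_cpt {q₀ : Tup n l} {O : Set (Tup n l)} (hO : O ∈ 𝓝 q₀) :
    ∃ K : Set (Tup n l), IsCompact K ∧ K ∈ 𝓝 q₀ ∧ K ⊆ O := by
  obtain ⟨ε, hε, h⟩ := Metric.nhds_basis_closedBall.mem_iff.1 hO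
  exact ⟨_, isCompact_closedBall q₀ ε, Metric.closedBall_mem_nhds q₀ hε, h⟩

/-- Bounds for critical points near a tuple. -/
theorem crit_bounded_at {q₀ : Tup n l} (hT : T1 q₀) {en : ℝ} (hen : 0 < en) (R H : ℝ) :
    ∃ C : ℝ, ∀ᶠ q in 𝓝 q₀, ∀ eta : ℝ, 0 ≤ eta → eta ≤ H → ∀ x ∈ CritF (fpol en eta q),
      ‖x (Fin.last n)‖ ≤ R → ‖x‖ ≤ C := by
  obtain ⟨K, hK, hKn, hKO⟩ := exists_cpt (T1_open'.mem_nhds hT)
  obtain ⟨C, hC⟩ := crit_bounded hK hKO hen R H
  exact ⟨C, by filter_upwards [hKn] with q hq using hC q hq⟩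

/-- Upper semicontinuity of the critical set over a compact set of values. -/
theorem crit_usc {q₀ : Tup n l} (hT : T1 q₀) {en : ℝ} (hen : 0 < en) {S : Set ℂ}
    (hS : IsCompact S) {O : Set (Fin (n + 1) → ℂ)} (hO : IsOpen O)
    (h : ∀ x ∈ CritF (f0 q₀), x (Fin.last n) ∈ S → x ∈ O) :
    ∀ᶠ p : ℝ × Tup n l in 𝓝 (0, q₀), 0 ≤ p.1 → ∀ x ∈ CritF (fpol en p.1 p.2),
      x (Fin.last n) ∈ S → x ∈ O := by
  obtain ⟨R, hR⟩ := hS.isBounded.exists_norm_le
  obtain ⟨C, hC⟩ := crit_bounded_at hT hen R 1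
  have hK := isCompact_closedBall (0 : Fin (n + 1) → ℂ) C
  have h1 := hK.eventually_forall_of_forall_eventually (x₀ := ((0, q₀) : ℝ × Tup n l))
    (P := fun (p : ℝ × Tup n l) (x : Fin (n + 1) → ℂ) =>
      x ∈ CritF (fpol en p.1 p.2) → x (Fin.last n) ∈ S → x ∈ O) (by
      intro x _
      by_cases hx : x ∈ O
      · have : ∀ᶠ z : (ℝ × Tup n l) × (Fin (n + 1) → ℂ) in 𝓝 ((0, q₀), x), z.2 ∈ O :=
          continuous_snd.continuousAt (hO.mem_nhds hx)
        filter_upwards [this] with z hz _ _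
        exact hz
      · by_cases hxS : x (Fin.last n) ∈ S
        · have hxc : x ∉ CritF (f0 q₀) := fun hc => hx (h x hc hxS)
          have hcl : IsClosed {z : (ℝ × Tup n l) × (Fin (n + 1) → ℂ) |
              z.2 ∈ CritF (fpol en z.1.1 z.1.2)} := by
            have := (isClosed_critF (n := n) (l := l) en).preimage
              (f := fun z : (ℝ × Tup n l) × (Fin (n + 1) → ℂ) => (z.1.1, z.1.2, z.2))
              (by fun_prop)
            exact this
          have hm : (((0, q₀), x) : (ℝ × Tup n l) × (Fin (n + 1) → ℂ)) ∉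
              {z : (ℝ × Tup n l) × (Fin (n + 1) → ℂ) |
                z.2 ∈ CritF (fpol en z.1.1 z.1.2)} := by
            intro hc
            apply hxc
            have hc' : x ∈ CritF (fpol en 0 q₀) := hc
            rwa [fpol_zero] at hc'
          filter_upwards [hcl.isOpen_compl.mem_nhds hm] with z hz h2 _
          exact absurd h2 hz
        · have hcont : Continuous fun z : (ℝ × Tup n l) × (Fin (n + 1) → ℂ) =>
              z.2 (Fin.last n) := by fun_prop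
          have hm : ∀ᶠ z : (ℝ × Tup n l) × (Fin (n + 1) → ℂ) in 𝓝 ((0, q₀), x),
              z.2 (Fin.last n) ∈ Sᶜ :=
            hcont.continuousAt (hS.isClosed.isOpen_compl.mem_nhds hxS)
          filter_upwards [hm] with z hz _ h3
          exact absurd h3 hz)
  have h2 : ∀ᶠ p : ℝ × Tup n l in 𝓝 (0, q₀), p.1 ≤ 1 :=
    continuous_fst.continuousAt.eventually (eventually_le_nhds zero_lt_one)
  have ht : Tendsto (fun p : ℝ × Tup n l => p.2) (𝓝 (0, q₀)) (𝓝 q₀) :=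
    continuous_snd.tendsto _
  have h3 := ht.eventually hC
  filter_upwards [h1, h2, h3] with p a1 a2 a3 a4 x hx hxS
  exact a1 x (by simpa using a3 p.1 a4 a2 x hx (hR _ hxS)) hx hxS

/-- The same at `eta = 0`. -/
theorem crit_usc0 {q₀ : Tup n l} (hT : T1 q₀) {S : Set ℂ}
    (hS : IsCompact S) {O : Set (Fin (n + 1) → ℂ)} (hO : IsOpen O)
    (h : ∀ x ∈ CritF (f0 q₀), x (Fin.last n) ∈ S → x ∈ O) :
    ∀ᶠ q in 𝓝 q₀, ∀ x ∈ CritF (f0 q), x (Fin.last n) ∈ S → x ∈ O := by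
  have h1 := crit_usc hT zero_lt_one hS hO h
  have h2 : Tendsto (fun q : Tup n l => ((0 : ℝ), q)) (𝓝 q₀) (𝓝 (0, q₀)) := by
    have : Continuous fun q : Tup n l => ((0 : ℝ), q) := by fun_prop
    exact this.tendsto q₀
  filter_upwards [h2.eventually h1] with q hq x hx hxS
  refine hq le_rfl x ?_ hxS
  rw [fpol_zero]
  exact hx

/-- At `eta = 0` the condition `z ∉ Sigma q` is open. -/
theorem notSig_open' {q : Tup n l} {z : ℂ} (h1 : T1 q) (hz : z ∉ SigF (f0 q)) :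
    ∀ᶠ p in 𝓝 (q, z), p.2 ∉ SigF (f0 p.1) := by
  -- a compact neighbourhood of `z` without critical values
  have hcl : ∀ᶠ z' in 𝓝 z, z' ∉ SigF (f0 q) := by
    obtain ⟨C, hC⟩ := crit_bounded_at h1 zero_lt_one (‖z‖ + 1) 0
    have hC' := hC.self_of_nhds 0 le_rfl le_rfl
    rw [fpol_zero] at hC'
    have hK : IsCompact (CritF (f0 q) ∩ Metric.closedBall (0 : Fin (n + 1) → ℂ) C) := by
      refine (isCompact_closedBall (0 : Fin (n + 1) → ℂ) C).inter_left ?_
      have := (isClosed_critF (n := n) (l := l) 1).preimage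
        (f := fun x : Fin (n + 1) → ℂ => ((0 : ℝ), q, x)) (by fun_prop)
      have h2 : (fun x : Fin (n + 1) → ℂ => ((0 : ℝ), q, x)) ⁻¹'
          {r : ℝ × Tup n l × (Fin (n + 1) → ℂ) | r.2.2 ∈ CritF (fpol 1 r.1 r.2.1)} =
          CritF (f0 q) := by
        ext x
        show x ∈ CritF (fpol 1 0 q) ↔ _
        rw [fpol_zero]
      rwa [h2] at this
    have hK' := (hK.image (f := fun x : Fin (n + 1) → ℂ => x (Fin.last n))
      (by fun_prop)).isClosed
    have hz' : z ∈ ((fun x : Fin (n + 1) → ℂ => x (Fin.last n)) ''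
        (CritF (f0 q) ∩ Metric.closedBall (0 : Fin (n + 1) → ℂ) C))ᶜ := by
      rintro ⟨x, hx, hxz⟩
      exact hz ⟨x, hx.1, hxz⟩
    have hn : ∀ᶠ z' in 𝓝 z, ‖z'‖ ≤ ‖z‖ + 1 := by
      have : Tendsto (fun z' : ℂ => ‖z'‖) (𝓝 z) (𝓝 ‖z‖) := continuous_norm.tendsto z
      exact this.eventually (eventually_le_nhds (lt_add_one _))
    filter_upwards [hK'.isOpen_compl.mem_nhds hz', hn] with z' a1 a2 a3
    obtain ⟨x, hx, hxz⟩ := a3
    simp only at hxz
    refine a1 ⟨x, ⟨hx, ?_⟩, hxz⟩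
    simpa using hC' x hx (by rw [hxz]; exact a2)
  obtain ⟨ε, hε, hb⟩ := Metric.nhds_basis_closedBall.mem_iff.1 hcl
  have h3 := crit_usc0 h1 (isCompact_closedBall z ε) isOpen_empty (by
    intro x hx hxS
    exact absurd ⟨x, hx, rfl⟩ (hb hxS))
  have ht : Tendsto (fun p : Tup n l × ℂ => p.1) (𝓝 (q, z)) (𝓝 q) :=
    continuous_fst.tendsto _
  have h4 := ht.eventually h3
  have h5 : ∀ᶠ p : Tup n l × ℂ in 𝓝 (q, z), p.2 ∈ Metric.closedBall z ε :=
    continuous_snd.continuousAt (Metric.closedBall_mem_nhds z hε)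
  filter_upwards [h4, h5] with p a1 a2 a3
  obtain ⟨x, hx, hxz⟩ := a3
  simp only at hxz
  exact a1 x hx (by rw [hxz]; exact a2)

/-! ### Bounds at `eta = 0` -/

lemma euler_form {N : ℕ} (p : QPc N) (x : Fin N → ℂ) :
    ∑ k, x k * qfgrad p k x = 2 * qform p x := by
  simp only [qfgrad, qform, add_mul, Finset.sum_add_distrib, mul_add, Finset.mul_sum]
  have e1 : ∑ k, ∑ j, x k * (p.1 k j * x j) = ∑ i, ∑ j, p.1 i j * x i * x j :=
    Finset.sum_congr rfl (fun i _ => Finset.sum_congr rfl (fun j _ => by ring))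
  have e2 : ∑ k, ∑ j, x k * (p.1 j k * x j) = ∑ i, ∑ j, p.1 i j * x i * x j := by
    rw [Finset.sum_comm]
    exact Finset.sum_congr rfl (fun i _ => Finset.sum_congr rfl (fun j _ => by ring))
  rw [e1, e2]
  simp only [← Finset.mul_sum]
  ring

/-- The compactness core at `eta = 0`. -/
theorem crit0_core {ι : Type*} (U : Ultrafilter ι) {N l : ℕ} (q : ι → Fin (l + 1) → QPc N)
    (q0 : Fin (l + 1) → QPc N) (hq : Tendsto q U (𝓝 q0)) (x : ι → Fin N → ℂ)
    (J : Finset (Fin N)) (hinf : Tendsto (fun i => ‖x i‖) U atTop)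
    (h0 : ∀ i, ∏ m, qval (q i m) (x i) = 1)
    (h1 : ∀ i, ∀ k ∈ J, ∑ m, copr (q i) (x i) m * qgrad (q i m) k (x i) = 0) :
    ∃ ξ : Fin N → ℂ, ‖ξ‖ = 1 ∧ ∃ b : Fin (l + 1) → ℂ, b ≠ 0 ∧
      (∀ m, b m * qform (q0 m) ξ = 0) ∧ ∀ k ∈ J, ∑ m, b m * qfgrad (q0 m) k ξ = 0 := by
  classical
  have hr1 : ∀ᶠ i in (U : Filter ι), 1 ≤ ‖x i‖ := hinf.eventually_ge_atTop 1
  -- the directions
  obtain ⟨ξ, hξ⟩ := ultra_lim U (fun i => ((‖x i‖ : ℂ)⁻¹) • x i) 1 (by
    filter_upwards [hr1] with i hi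
    rw [norm_smul, norm_inv, Complex.norm_real, Real.norm_of_nonneg (norm_nonneg _),
      inv_mul_cancel₀ (by linarith)])
  have hξ1 : ‖ξ‖ = 1 := by
    refine tendsto_nhds_unique ((continuous_norm.tendsto ξ).comp hξ) ?_
    refine tendsto_const_nhds.congr' ?_
    filter_upwards [hr1] with i hi
    simp only [Function.comp]
    rw [norm_smul, norm_inv, Complex.norm_real, Real.norm_of_nonneg (norm_nonneg _),
      inv_mul_cancel₀ (by linarith)]
  have hinv : Tendsto (fun i => ((‖x i‖ : ℂ)⁻¹)) U (𝓝 0) := by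
    have : Tendsto (fun i => (‖x i‖)⁻¹) U (𝓝 0) := tendsto_inv_atTop_zero.comp hinf
    have h2 := (Complex.continuous_ofReal.tendsto 0).comp this
    simpa [Function.comp_def] using h2
  have hqm : ∀ m, Tendsto (fun i => q i m) U (𝓝 (q0 m)) := fun m =>
    ((continuous_apply m).tendsto q0).comp hq
  have hval : ∀ m, Tendsto (fun i => ((‖x i‖ : ℂ)⁻¹) ^ 2 * qval (q i m) (x i)) U
      (𝓝 (qform (q0 m) ξ)) := by
    intro m
    have t1 : Tendsto (fun i => qform (q i m) (((‖x i‖ : ℂ)⁻¹) • x i)) U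
        (𝓝 (qform (q0 m) ξ)) :=
      tendsto_comp2 (U : Filter ι) qform continuous_qform (fun i => q i m) _ (q0 m) ξ (hqm m) hξ
    have t2 : Tendsto (fun i => ∑ j, (q i m).2.1 j * (((‖x i‖ : ℂ)⁻¹) • x i) j) U
        (𝓝 (∑ j, (q0 m).2.1 j * ξ j)) := by
      have c : Continuous (fun z : QPc N × (Fin N → ℂ) => ∑ j, z.1.2.1 j * z.2 j) := by fun_prop
      exact tendsto_comp2 (U : Filter ι) (fun (p : QPc N) (y : Fin N → ℂ) => ∑ j, p.2.1 j * y j)
        c (fun i => q i m) _ (q0 m) ξ (hqm m) hξ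
    have t3 : Tendsto (fun i => (q i m).2.2) U (𝓝 (q0 m).2.2) :=
      tendsto_comp1 (U : Filter ι) (fun p : QPc N => p.2.2) (by fun_prop) (fun i => q i m)
        (q0 m) (hqm m)
    have t4 := (t1.add (hinv.mul t2)).add ((hinv.pow 2).mul t3)
    have e : (fun i => ((‖x i‖ : ℂ)⁻¹) ^ 2 * qval (q i m) (x i)) = fun i =>
        qform (q i m) (((‖x i‖ : ℂ)⁻¹) • x i) + ((‖x i‖ : ℂ)⁻¹) *
          (∑ j, (q i m).2.1 j * (((‖x i‖ : ℂ)⁻¹) • x i) j) +
            ((‖x i‖ : ℂ)⁻¹) ^ 2 * (q i m).2.2 := by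
      funext i
      exact qval_scale _ _ _
    rw [e]
    simpa using t4
  have hgrad : ∀ m k, Tendsto (fun i => ((‖x i‖ : ℂ)⁻¹) * qgrad (q i m) k (x i)) U
      (𝓝 (qfgrad (q0 m) k ξ)) := by
    intro m k
    have t1 : Tendsto (fun i => qfgrad (q i m) k (((‖x i‖ : ℂ)⁻¹) • x i)) U
        (𝓝 (qfgrad (q0 m) k ξ)) :=
      tendsto_comp2 (U : Filter ι) (fun p y => qfgrad p k y) (continuous_qfgrad k)
        (fun i => q i m) _ (q0 m) ξ (hqm m) hξ
    have t3 : Tendsto (fun i => (q i m).2.1 k) U (𝓝 ((q0 m).2.1 k)) :=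
      tendsto_comp1 (U : Filter ι) (fun p : QPc N => p.2.1 k) (by fun_prop) (fun i => q i m)
        (q0 m) (hqm m)
    have t4 := t1.add (hinv.mul t3)
    have e : (fun i => ((‖x i‖ : ℂ)⁻¹) * qgrad (q i m) k (x i)) = fun i =>
        qfgrad (q i m) k (((‖x i‖ : ℂ)⁻¹) • x i) + ((‖x i‖ : ℂ)⁻¹) * (q i m).2.1 k := by
      funext i
      exact qgrad_scale _ _ _ _
    rw [e]
    simpa using t4
  -- the multipliers
  have hcm : ∀ i m, copr (q i) (x i) m * qval (q i m) (x i) = 1 := by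
    intro i m
    rw [copr_mul, h0]
  have hM : ∀ i, 1 ≤ ‖copr (q i) (x i)‖ := by
    intro i
    by_contra hlt
    push Not at hlt
    have h2 : ∏ m, copr (q i) (x i) m = 1 := by
      have e1 : (∏ m, copr (q i) (x i) m) * ∏ m, qval (q i m) (x i) = 1 := by
        rw [← Finset.prod_mul_distrib]
        exact Finset.prod_eq_one fun m _ => hcm i m
      rwa [h0, mul_one] at e1
    have h3 : ∀ m, ‖copr (q i) (x i) m‖ < 1 := fun m =>
      (norm_le_pi_norm _ m).trans_lt hlt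
    have h4 : ‖∏ m, copr (q i) (x i) m‖ < 1 := by
      rw [norm_prod]
      calc ∏ m, ‖copr (q i) (x i) m‖
          ≤ ∏ m : Fin (l + 1), ‖copr (q i) (x i)‖ :=
            Finset.prod_le_prod (fun m _ => norm_nonneg _) fun m _ => norm_le_pi_norm _ m
        _ = ‖copr (q i) (x i)‖ ^ (l + 1) := by simp
        _ < 1 := pow_lt_one₀ (norm_nonneg _) hlt (by omega)
    rw [h2, norm_one] at h4
    exact lt_irrefl _ h4
  obtain ⟨b, hb⟩ := ultra_lim U (fun i => ((‖copr (q i) (x i)‖ : ℂ)⁻¹) • copr (q i) (x i)) 1 (by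
    refine Eventually.of_forall fun i => ?_
    have := hM i
    rw [norm_smul, norm_inv, Complex.norm_real, Real.norm_of_nonneg (norm_nonneg _),
      inv_mul_cancel₀ (by linarith)])
  have hb1 : ‖b‖ = 1 := by
    refine tendsto_nhds_unique ((continuous_norm.tendsto b).comp hb) ?_
    refine tendsto_const_nhds.congr' (Eventually.of_forall fun i => ?_)
    have := hM i
    simp only [Function.comp]
    rw [norm_smul, norm_inv, Complex.norm_real, Real.norm_of_nonneg (norm_nonneg _),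
      inv_mul_cancel₀ (by linarith)]
  have hb0 : b ≠ 0 := by
    intro h
    rw [h, norm_zero] at hb1
    exact zero_ne_one hb1
  have hbm : ∀ m, Tendsto (fun i => ((‖copr (q i) (x i)‖ : ℂ)⁻¹) * copr (q i) (x i) m) U
      (𝓝 (b m)) := fun m => ((continuous_apply m).tendsto b).comp hb
  refine ⟨ξ, hξ1, b, hb0, fun m => ?_, fun k hk => ?_⟩
  · refine tendsto_nhds_unique ((hbm m).mul (hval m)) ?_
    rw [tendsto_zero_iff_norm_tendsto_zero]
    have h2 : Tendsto (fun i => (‖x i‖)⁻¹ ^ 2) U (𝓝 0) := by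
      have : Tendsto (fun i => (‖x i‖)⁻¹) U (𝓝 0) := tendsto_inv_atTop_zero.comp hinf
      simpa using this.pow 2
    refine squeeze_zero' (Eventually.of_forall fun i => norm_nonneg _)
      (Eventually.of_forall fun i => ?_) h2
    have e1 : ((‖copr (q i) (x i)‖ : ℂ)⁻¹) * copr (q i) (x i) m *
        (((‖x i‖ : ℂ)⁻¹) ^ 2 * qval (q i m) (x i)) =
        ((‖copr (q i) (x i)‖ : ℂ)⁻¹) * ((‖x i‖ : ℂ)⁻¹) ^ 2 := by
      linear_combination ((‖copr (q i) (x i)‖ : ℂ)⁻¹) * ((‖x i‖ : ℂ)⁻¹) ^ 2 * hcm i m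
    rw [e1, norm_mul, norm_pow, norm_inv, norm_inv, Complex.norm_real, Complex.norm_real,
      norm_norm, norm_norm]
    have h5 : (‖copr (q i) (x i)‖)⁻¹ ≤ 1 := inv_le_one_of_one_le₀ (hM i)
    calc (‖copr (q i) (x i)‖)⁻¹ * (‖x i‖)⁻¹ ^ 2 ≤ 1 * (‖x i‖)⁻¹ ^ 2 := by gcongr
      _ = (‖x i‖)⁻¹ ^ 2 := one_mul _
  · have hL := tendsto_finsetSum (Finset.univ : Finset (Fin (l + 1)))
      fun m _ => (hbm m).mul (hgrad m k)
    refine tendsto_nhds_unique hL (tendsto_const_nhds.congr' (Eventually.of_forall fun i => ?_))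
    have e1 : ∑ m, (((‖copr (q i) (x i)‖ : ℂ)⁻¹) * copr (q i) (x i) m) *
        (((‖x i‖ : ℂ)⁻¹) * qgrad (q i m) k (x i)) =
        ((‖copr (q i) (x i)‖ : ℂ)⁻¹) * ((‖x i‖ : ℂ)⁻¹) *
          ∑ m, copr (q i) (x i) m * qgrad (q i m) k (x i) := by
      rw [Finset.mul_sum]
      exact Finset.sum_congr rfl (fun m _ => by ring)
    simp only
    rw [e1, h1 i k hk, mul_zero]

/-- At `eta = 0` the critical points are bounded on compact sets. -/
theorem crit0_bounded {K : Set (Tup n l)} (hK : IsCompact K) (h0 : ∀ q ∈ K, T0 q)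
    (h1 : ∀ q ∈ K, T1 q) : ∃ C : ℝ, ∀ q ∈ K, ∀ x ∈ CritF (f0 q), ‖x‖ ≤ C := by
  by_contra hcon
  push Not at hcon
  choose q hqK x hx hxC using fun j : ℕ => hcon (j : ℝ)
  obtain ⟨q0, hq0K, hq0⟩ := isCompact_iff_ultrafilter_le_nhds.1 hK
    ((hyperfilter ℕ).map q) (by
      rw [le_principal_iff]
      show ∀ᶠ j in (hyperfilter ℕ : Filter ℕ), q j ∈ K
      exact Filter.Eventually.of_forall hqK)
  have hU : ((hyperfilter ℕ : Ultrafilter ℕ) : Filter ℕ) ≤ atTop := by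
    rw [← Nat.cofinite_eq_atTop]
    exact hyperfilter_le_cofinite
  have hinf : Tendsto (fun j => ‖x j‖) (hyperfilter ℕ : Filter ℕ) atTop :=
    (tendsto_atTop_mono (fun j => (hxC j).le) tendsto_natCast_atTop_atTop).mono_left hU
  have hx' : ∀ j, x j ∈ CritF (fpol 1 0 (q j)) := by
    intro j
    rw [fpol_zero]
    exact hx j
  obtain ⟨ξ, hξ1, b, hb, e1, e2⟩ := crit0_core (hyperfilter ℕ) q q0 hq0 x (Jc n) hinf
    (fun j => by
      have := ((mem_CritF 1 0 _ _).1 (hx' j)).1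
      simpa using this)
    (fun j k hk => by
      have := ((mem_CritF 1 0 _ _).1 (hx' j)).2 k hk
      simpa using this)
  have hξ0 : ξ ≠ 0 := by
    rintro rfl
    simp at hξ1
  by_cases hl : ξ (Fin.last n) = 0
  · exact hb (h1 q0 hq0K ξ hξ0 hl b 0 e1 (fun i => by
      rw [e2 _ (castSucc_mem_Jc i), zero_mul])).1
  · -- Euler
    have e3 : ∑ m, b m * qfgrad (q0 m) (Fin.last n) ξ = 0 := by
      have e4 : ∑ k, ξ k * ∑ m, b m * qfgrad (q0 m) k ξ = 0 := by
        have : ∑ k, ξ k * ∑ m, b m * qfgrad (q0 m) k ξ =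
            ∑ m, b m * ∑ k, ξ k * qfgrad (q0 m) k ξ := by
          simp only [Finset.mul_sum]
          rw [Finset.sum_comm]
          exact Finset.sum_congr rfl fun m _ => Finset.sum_congr rfl fun k _ => by ring
        rw [this]
        refine Finset.sum_eq_zero fun m _ => ?_
        rw [euler_form]
        linear_combination 2 * e1 m
      rw [Fin.sum_univ_castSucc] at e4
      have e5 : ∑ i : Fin n, ξ i.castSucc * ∑ m, b m * qfgrad (q0 m) i.castSucc ξ = 0 :=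
        Finset.sum_eq_zero fun i _ => by rw [e2 _ (castSucc_mem_Jc i), mul_zero]
      rw [e5, zero_add] at e4
      exact (mul_eq_zero.1 e4).resolve_left hl
    by_cases hc : ∃ i : Fin n, ξ i.castSucc ≠ 0
    · exact hb ((h0 q0 hq0K).1 ξ hc b 0 e1 (fun i => by
        rw [e2 _ (castSucc_mem_Jc i), zero_mul]) e3).1
    · push Not at hc
      apply hb
      funext m
      refine (mul_eq_zero.1 (e1 m)).resolve_right ?_
      rw [qform_last _ _ hc]
      exact mul_ne_zero (mul_ne_zero ((h0 q0 hq0K).2 m) hl) hl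

/-! ### Frames -/

/-- the point where the polynomial in the frame `c` reads the original one -/
def shP (c : Fin n → ℂ) (ξ : Fin (n + 1) → ℂ) : Fin (n + 1) → ℂ :=
  fun k => if k = Fin.last n then ξ k - ∑ i : Fin n, c i * ξ i.castSucc else ξ k

lemma shP_castSucc (c : Fin n → ℂ) (ξ : Fin (n + 1) → ℂ) (i : Fin n) :
    shP c ξ i.castSucc = ξ i.castSucc := by
  simp [shP, Fin.castSucc_ne_last]

lemma shP_last (c : Fin n → ℂ) (ξ : Fin (n + 1) → ℂ) :
    shP c ξ (Fin.last n) = ξ (Fin.last n) - ∑ i : Fin n, c i * ξ i.castSucc := by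
  simp [shP]

lemma snoc_sum (c : Fin n → ℂ) (ξ : Fin (n + 1) → ℂ) :
    ∑ j, (Fin.snoc c 0 : Fin (n + 1) → ℂ) j * ξ j = ∑ i : Fin n, c i * ξ i.castSucc := by
  rw [Fin.sum_univ_castSucc]
  simp

lemma qfgrad_shQ (c : Fin n → ℂ) (p : QPc (n + 1)) (ξ : Fin (n + 1) → ℂ) (k : Fin (n + 1)) :
    qfgrad (shQ c p) k ξ = qfgrad p k (shP c ξ) -
      (Fin.snoc c 0 : Fin (n + 1) → ℂ) k * qfgrad p (Fin.last n) (shP c ξ) := by
  have key : ∀ g : Fin (n + 1) → ℂ, ∑ j, g j * shP c ξ j =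
      ∑ j, (g j * ξ j - g (Fin.last n) * ((Fin.snoc c 0 : Fin (n + 1) → ℂ) j * ξ j)) := by
    intro g
    rw [Finset.sum_sub_distrib, ← Finset.mul_sum, snoc_sum, Fin.sum_univ_castSucc,
      Fin.sum_univ_castSucc (fun j => g j * ξ j), shP_last]
    simp only [shP_castSucc]
    ring
  unfold qfgrad
  rw [key (fun j => p.1 k j + p.1 j k), key (fun j => p.1 (Fin.last n) j + p.1 j (Fin.last n)),
    Finset.mul_sum, ← Finset.sum_sub_distrib]
  refine Finset.sum_congr rfl fun j _ => ?_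
  simp only [shQ]
  ring

lemma qform_shQ (c : Fin n → ℂ) (p : QPc (n + 1)) (ξ : Fin (n + 1) → ℂ) :
    qform (shQ c p) ξ = qform p (shP c ξ) := by
  have h1 := euler_form (shQ c p) ξ
  have h2 := euler_form p (shP c ξ)
  have h3 : ∑ k, ξ k * qfgrad (shQ c p) k ξ = ∑ k, shP c ξ k * qfgrad p k (shP c ξ) := by
    simp only [qfgrad_shQ, mul_sub, Finset.sum_sub_distrib]
    have e1 : ∑ k, ξ k * ((Fin.snoc c 0 : Fin (n + 1) → ℂ) k *
        qfgrad p (Fin.last n) (shP c ξ)) =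
        (∑ i : Fin n, c i * ξ i.castSucc) * qfgrad p (Fin.last n) (shP c ξ) := by
      rw [← snoc_sum, Finset.sum_mul]
      exact Finset.sum_congr rfl fun k _ => by ring
    rw [e1, Fin.sum_univ_castSucc,
      Fin.sum_univ_castSucc (fun k => shP c ξ k * qfgrad p k (shP c ξ)), shP_last]
    simp only [shP_castSucc]
    ring
  have h4 : (2 : ℂ) * qform (shQ c p) ξ = 2 * qform p (shP c ξ) := by
    rw [← h1, ← h2, h3]
  exact mul_left_cancel₀ two_ne_zero h4

/-- `T0` does not change under frames. -/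
theorem T0_shT' {q : Tup n l} (h : T0 q) (c : Fin n → ℂ) : T0 (shT c q) := by
  refine ⟨?_, fun m => ?_⟩
  · rintro ξ ⟨i, hi⟩ b κ h1 h2 h3
    have e1 : ∑ m, b m * qfgrad (q m) (Fin.last n) (shP c ξ) = 0 := by
      rw [← h3]
      refine Finset.sum_congr rfl fun m _ => ?_
      have : shT c q m = shQ c (q m) := rfl
      rw [this, qfgrad_shQ]
      simp
    refine h.1 (shP c ξ) ⟨i, by rwa [shP_castSucc]⟩ b κ (fun m => ?_) (fun j => ?_) e1
    · rw [← h1 m]
      show _ = b m * qform (shQ c (q m)) ξ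
      rw [qform_shQ]
    · rw [shP_castSucc, ← h2 j]
      have e2 : ∑ m, b m * qfgrad (shT c q m) j.castSucc ξ =
          ∑ m, b m * qfgrad (q m) j.castSucc (shP c ξ) -
            c j * ∑ m, b m * qfgrad (q m) (Fin.last n) (shP c ξ) := by
        rw [Finset.mul_sum, ← Finset.sum_sub_distrib]
        refine Finset.sum_congr rfl fun m _ => ?_
        have : shT c q m = shQ c (q m) := rfl
        rw [this, qfgrad_shQ]
        simp
        ring
      rw [e2, e1, mul_zero, sub_zero]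
  · have : (shT c q m).1 (Fin.last n) (Fin.last n) = (q m).1 (Fin.last n) (Fin.last n) := by
      simp [shT, shQ]
    rw [this]
    exact h.2 m

end Pool.Agent.QC
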